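import Mathlib

/-!
Affine groups over commutative rings and the evaluation of words in them.
-/

set_option autoImplicit false
set_option linter.unusedSectionVars false

namespace Run7.h476

open Monoid

universe u v w z

/-- A homomorphism with commutative kernel raises the derived length by at most one. -/
theorem ds_ker {G : Type u} {H : Type v} [Group G] [Group H] (f : G →* H) (n : ℕ)
    (hn : derivedSeries H n = ⊥) (hk : ∀ a b : G, f a = 1 → f b = 1 → a * b = b * a) :
    derivedSeries G (n + 1) = ⊥ := by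
  have h0 : derivedSeries G n ≤ f.ker := by
    intro x hx
    have h1 : f x ∈ derivedSeries H n := map_derivedSeries_le_derivedSeries f n ⟨x, hx, rfl⟩
    rw [hn, Subgroup.mem_bot] at h1
    exact h1
  rw [derivedSeries_succ, eq_bot_iff, Subgroup.commutator_le]
  intro a ha b hb
  rw [Subgroup.mem_bot, commutatorElement_eq_one_iff_mul_comm]
  exact hk a b (h0 ha) (h0 hb)

theorem ds_of_le {G : Type u} [Group G] {m n : ℕ} (h : m ≤ n) (hm : derivedSeries G m = ⊥) :
    derivedSeries G n = ⊥ := by
  rw [eq_bot_iff, ← hm]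
  exact derivedSeries_antitone G h

theorem ds_inj {G : Type u} {H : Type v} [Group G] [Group H] (f : G →* H)
    (hf : Function.Injective f) (n : ℕ) (hn : derivedSeries H n = ⊥) : derivedSeries G n = ⊥ := by
  rw [eq_bot_iff]
  intro x hx
  have h1 : f x ∈ derivedSeries H n := map_derivedSeries_le_derivedSeries f n ⟨x, hx, rfl⟩
  rw [hn, Subgroup.mem_bot] at h1
  exact hf (h1.trans (map_one f).symm)

/-- pairs `(v, u)` with `v` in the `R`-module `V` and `u` a unit of `R` -/
@[ext] structure Aff (R : Type u) (V : Type v) [CommRing R] [AddCommGroup V] [Module R V] where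
  v : V
  u : Rˣ

namespace Aff

variable {R : Type u} {V : Type v} [CommRing R] [AddCommGroup V] [Module R V]

instance : Mul (Aff R V) := ⟨fun p q => ⟨p.v + (p.u : R) • q.v, p.u * q.u⟩⟩
instance : One (Aff R V) := ⟨⟨0, 1⟩⟩
instance : Inv (Aff R V) := ⟨fun p => ⟨-((p.u⁻¹ : Rˣ) : R) • p.v, p.u⁻¹⟩⟩

@[simp] lemma mul_v (p q : Aff R V) : (p * q).v = p.v + (p.u : R) • q.v := rfl
@[simp] lemma mul_u (p q : Aff R V) : (p * q).u = p.u * q.u := rfl
@[simp] lemma one_v : (1 : Aff R V).v = 0 := rfl
@[simp] lemma one_u : (1 : Aff R V).u = 1 := rfl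
@[simp] lemma inv_v (p : Aff R V) : (p⁻¹).v = -((p.u⁻¹ : Rˣ) : R) • p.v := rfl
@[simp] lemma inv_u (p : Aff R V) : (p⁻¹).u = p.u⁻¹ := rfl

instance : Group (Aff R V) := Group.ofLeftAxioms
  (fun p q r => by
    ext
    · simp [smul_add, mul_smul, add_assoc]
    · simp [mul_assoc])
  (fun p => by ext <;> simp)
  (fun p => by ext <;> simp)

/-- the second coordinate as a homomorphism -/
def uHom (R : Type u) (V : Type v) [CommRing R] [AddCommGroup V] [Module R V] :
    Aff R V →* Rˣ where
  toFun p := p.u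
  map_one' := rfl
  map_mul' _ _ := rfl

@[simp] lemma uHom_apply (p : Aff R V) : uHom R V p = p.u := rfl

/-- the units as a subgroup -/
def inU (R : Type u) (V : Type v) [CommRing R] [AddCommGroup V] [Module R V] :
    Rˣ →* Aff R V where
  toFun u := ⟨0, u⟩
  map_one' := rfl
  map_mul' a b := by
    ext
    · simp
    · simp

@[simp] lemma inU_u (p : Rˣ) : (inU R V p).u = p := rfl
@[simp] lemma inU_v (p : Rˣ) : (inU R V p).v = 0 := rfl

theorem ds : derivedSeries (Aff R V) 2 = ⊥ := by
  have h1 : derivedSeries Rˣ 1 = ⊥ := by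
    rw [derivedSeries_one, commutator_def, eq_bot_iff, Subgroup.commutator_le]
    intro a _ b _
    rw [Subgroup.mem_bot, commutatorElement_eq_one_iff_mul_comm]
    exact mul_comm a b
  refine ds_ker (uHom R V) 1 h1 fun a b ha hb => ?_
  rw [uHom_apply] at ha hb
  ext
  · simp [ha, hb, add_comm]
  · simp [ha, hb]

end Aff

section words

variable {G : Type w} [Group G] {n : ℕ}

/-- words -/
abbrev Wd (G : Type w) [Group G] (n : ℕ) := Coprod G (FreeGroup (Fin n))

/-- evaluation of words -/
abbrev ev {H : Type v} [Group H] (φ : G →* H) (t : Fin n → H) : Wd G n →* H :=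
  Coprod.lift φ (FreeGroup.lift t)

theorem ev_comp {H : Type v} [Group H] {K : Type z} [Group K] (f : H →* K) (φ : G →* H)
    (t : Fin n → H) (x : Wd G n) : f (ev φ t x) = ev (f.comp φ) (fun i => f (t i)) x := by
  have h : f.comp (ev φ t) = ev (f.comp φ) (fun i => f (t i)) := by
    apply Coprod.hom_ext
    · ext g; simp
    · apply FreeGroup.ext_hom
      intro i; simp
  rw [← h]
  rfl

theorem hom_eq_ev {H : Type v} [Group H] (f : Wd G n →* H) (x : Wd G n) :
    f x = ev (f.comp Coprod.inl) (fun i => f (Coprod.inr (FreeGroup.of i))) x := by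
  have h : f = ev (f.comp Coprod.inl) (fun i => f (Coprod.inr (FreeGroup.of i))) := by
    apply Coprod.hom_ext
    · ext g; simp
    · apply FreeGroup.ext_hom
      intro i; simp
  rw [← h]

variable {R : Type u} {V : Type v} [CommRing R] [AddCommGroup V] [Module R V]

/-- the derivatives of a word -/
def dr (a : G →* Rˣ) (t : Fin n → Rˣ) : Wd G n →* Aff R (Fin n → R) :=
  ev ((Aff.inU R (Fin n → R)).comp a) (fun j => ⟨Pi.single j 1, t j⟩)

theorem dr_u (a : G →* Rˣ) (t : Fin n → Rˣ) (x : Wd G n) : (dr a t x).u = ev a t x := by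
  have := ev_comp (Aff.uHom R (Fin n → R)) ((Aff.inU R (Fin n → R)).comp a)
    (fun j : Fin n => ⟨Pi.single j 1, t j⟩) x
  exact this

theorem ev_u (Φ : G →* Aff R V) (a : G →* Rˣ) (ha : ∀ g, (Φ g).u = a g) (m : Fin n → V)
    (t : Fin n → Rˣ) (x : Wd G n) : (ev Φ (fun j => (⟨m j, t j⟩ : Aff R V)) x).u = ev a t x := by
  have h := ev_comp (Aff.uHom R V) Φ (fun j : Fin n => (⟨m j, t j⟩ : Aff R V)) x
  have h2 : (Aff.uHom R V).comp Φ = a := by
    ext g
    simp [ha]
  rw [h2] at h
  exact h

theorem ev_v (Φ : G →* Aff R V) (a : G →* Rˣ) (ha : ∀ g, (Φ g).u = a g) (m : Fin n → V)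
    (t : Fin n → Rˣ) (x : Wd G n) :
    (ev Φ (fun j => (⟨m j, t j⟩ : Aff R V)) x).v =
      (ev Φ (fun j => (⟨0, t j⟩ : Aff R V)) x).v + ∑ j, (dr a t x).v j • m j := by
  let Ψ : Wd G n →* Aff R V :=
    { toFun := fun x => ⟨(ev Φ (fun j => (⟨0, t j⟩ : Aff R V)) x).v +
        ∑ j, (dr a t x).v j • m j, ev a t x⟩
      map_one' := by
        ext
        · simp
        · simp
      map_mul' := by
        intro x y
        have h1 : (ev Φ (fun j => (⟨0, t j⟩ : Aff R V)) x).u = ev a t x := ev_u Φ a ha _ t x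
        ext
        · simp only [map_mul, Aff.mul_v, h1, dr_u, Pi.add_apply, Pi.smul_apply, smul_eq_mul,
            add_smul, Finset.sum_add_distrib, smul_add, Finset.smul_sum, mul_smul]
          abel
        · simp }
  have h : ev Φ (fun j => (⟨m j, t j⟩ : Aff R V)) = Ψ := by
    apply Coprod.hom_ext
    · ext g
      · show (ev Φ (fun j => (⟨m j, t j⟩ : Aff R V)) (Coprod.inl g)).v =
          (ev Φ (fun j => (⟨0, t j⟩ : Aff R V)) (Coprod.inl g)).v +
            ∑ j, (dr a t (Coprod.inl g)).v j • m j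
        simp [dr]
      · show ((ev Φ (fun j => (⟨m j, t j⟩ : Aff R V)) (Coprod.inl g)).u : R) =
          (ev a t (Coprod.inl g) : Rˣ)
        simp [ha]
    · apply FreeGroup.ext_hom
      intro i
      ext
      · show (ev Φ (fun j => (⟨m j, t j⟩ : Aff R V)) (Coprod.inr (FreeGroup.of i))).v =
          (ev Φ (fun j => (⟨0, t j⟩ : Aff R V)) (Coprod.inr (FreeGroup.of i))).v +
            ∑ j, (dr a t (Coprod.inr (FreeGroup.of i))).v j • m j
        rw [Finset.sum_eq_single i]
        · simp [dr]
        · intro j _ hj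
          simp [dr, hj]
        · simp
      · show ((ev Φ (fun j => (⟨m j, t j⟩ : Aff R V)) (Coprod.inr (FreeGroup.of i))).u : R) =
          (ev a t (Coprod.inr (FreeGroup.of i)) : Rˣ)
        simp
  rw [h]
  rfl

/-- naturality of the derivatives -/
theorem dr_map {R' : Type z} [CommRing R'] (f : R →+* R') (a : G →* Rˣ) (t : Fin n → Rˣ)
    (x : Wd G n) (j : Fin n) :
    f ((dr a t x).v j) =
      (dr ((Units.map (f : R →* R')).comp a) (fun i => Units.map (f : R →* R') (t i)) x).v j := by
  let F : Aff R (Fin n → R) →* Aff R' (Fin n → R') :=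
    { toFun := fun p => ⟨fun i => f (p.v i), Units.map (f : R →* R') p.u⟩
      map_one' := by
        ext
        · simp
        · simp
      map_mul' := by
        intro p q
        ext
        · simp
        · simp }
  have h := ev_comp F ((Aff.inU R (Fin n → R)).comp a)
    (fun j : Fin n => ⟨Pi.single j 1, t j⟩) x
  have h1 : F.comp ((Aff.inU R (Fin n → R)).comp a) =
      (Aff.inU R' (Fin n → R')).comp ((Units.map (f : R →* R')).comp a) := by
    ext g
    · show f 0 = 0
      simp
    · rfl
  have h2 : (fun i : Fin n => F ⟨Pi.single i 1, t i⟩) =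
      fun i => ⟨Pi.single i 1, Units.map (f : R →* R') (t i)⟩ := by
    funext i
    ext k
    · show f ((Pi.single i 1 : Fin n → R) k) = (Pi.single i 1 : Fin n → R') k
      by_cases hk : k = i
      · subst hk; simp
      · simp [hk]
    · rfl
  rw [h1, h2] at h
  exact congrFun (congrArg Aff.v h) j

/-- the exponent sums of a word -/
def expo (G : Type w) [Group G] (n : ℕ) : Wd G n →* Multiplicative (Fin n → ℤ) :=
  ev 1 (fun j => Multiplicative.ofAdd (Pi.single j 1))

theorem dr_trivial (x : Wd G n) (j : Fin n) :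
    (dr (1 : G →* ℤˣ) (fun _ => 1) x).v j = Multiplicative.toAdd (expo G n x) j := by
  let F : Multiplicative (Fin n → ℤ) →* Aff ℤ (Fin n → ℤ) :=
    { toFun := fun p => ⟨Multiplicative.toAdd p, 1⟩
      map_one' := by ext <;> simp
      map_mul' := by
        intro p q
        ext
        · simp
        · simp }
  have h := ev_comp F (1 : G →* Multiplicative (Fin n → ℤ))
    (fun j => Multiplicative.ofAdd (Pi.single j 1)) x
  have h1 : F.comp (1 : G →* Multiplicative (Fin n → ℤ)) =
      (Aff.inU ℤ (Fin n → ℤ)).comp (1 : G →* ℤˣ) := by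
    ext g <;> simp
  rw [h1] at h
  exact (congrFun (congrArg Aff.v h) j).symm

/-- the exponent sum of `x_j` in a word -/
def expSum (j : Fin n) (x : Wd G n) : ℤ :=
  Multiplicative.toAdd (Coprod.lift (1 : G →* Multiplicative ℤ)
    (FreeGroup.lift fun k : Fin n => if k = j then Multiplicative.ofAdd (1 : ℤ) else 1) x)

theorem expo_eq (x : Wd G n) (j : Fin n) : Multiplicative.toAdd (expo G n x) j = expSum j x := by
  let F : Multiplicative (Fin n → ℤ) →* Multiplicative ℤ :=
    AddMonoidHom.toMultiplicative (Pi.evalAddMonoidHom (fun _ => ℤ) j)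
  have h := ev_comp F (1 : G →* Multiplicative (Fin n → ℤ))
    (fun j => Multiplicative.ofAdd (Pi.single j 1)) x
  have h2 : (fun i : Fin n => F (Multiplicative.ofAdd (Pi.single i 1))) =
      fun k : Fin n => if k = j then Multiplicative.ofAdd (1 : ℤ) else 1 := by
    funext i
    show Multiplicative.ofAdd ((Pi.single i (1 : ℤ) : Fin n → ℤ) j) = _
    by_cases hi : i = j
    · subst hi; simp
    · rw [if_neg hi, Pi.single_eq_of_ne (Ne.symm hi), ofAdd_zero]
  rw [h2, MonoidHom.comp_one] at h
  exact congrArg Multiplicative.toAdd h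

end words

end Run7.h476
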