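import Pool.Agent.Run7.h476.Ring
import Pool.Agent.Run7.h476.Aff

/-!
Nonsingular systems over abelian-by-(finite abelian `p`-group) groups.
-/

set_option autoImplicit false
set_option linter.unusedSectionVars false

namespace Run7.h476

open Monoid MonoidAlgebra
open scoped IsMulCommutative

universe u v w z

/-- the group with generators `Q` and `x_j` and the relations `w_i` is abelian and finite, and the
determinant of the derivatives has the right image -/
theorem exists_overgroup {G : Type w} [Group G] {Q : Type u} [CommGroup Q] [Finite Q] {p : ℕ}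
    [Fact p.Prime] (hQ : IsPGroup p Q) (a : G →* Q) {n : ℕ} (x : Fin n → Wd G n)
    (hdet : (Matrix.of fun i j : Fin n => expSum j (x i)).det ≠ 0) :
    ∃ (X : Type u) (_ : CommGroup X) (_ : Finite X) (ι : Q →* X) (t : Fin n → X),
      Function.Injective ι ∧ (∀ i, ev (ι.comp a) t (x i) = 1) ∧
      Data p ι (Matrix.of fun i j : Fin n =>
        (dr ((MonoidHom.toHomUnits (MonoidAlgebra.of ℤ X)).comp (ι.comp a))
          (fun j => MonoidHom.toHomUnits (MonoidAlgebra.of ℤ X) (t j)) (x i)).v j).det := by
  set E : Matrix (Fin n) (Fin n) ℤ := Matrix.of fun i j : Fin n => expSum j (x i) with hE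
  let Z := Multiplicative (Fin n → ℤ)
  let θ : Wd G n →* Q × Z :=
    ev ((MonoidHom.inl Q Z).comp a) (fun j => (1, Multiplicative.ofAdd (Pi.single j 1)))
  have hθ2 : ∀ y : Wd G n, (θ y).2 = expo G n y := by
    intro y
    have h := ev_comp (MonoidHom.snd Q Z) ((MonoidHom.inl Q Z).comp a)
      (fun j => (1, Multiplicative.ofAdd (Pi.single j 1))) y
    have h1 : (MonoidHom.snd Q Z).comp ((MonoidHom.inl Q Z).comp a) = 1 := by
      ext g; simp
    rw [h1] at h
    exact h
  -- the relations
  let κ : Z →* Q × Z :=
    { toFun := fun c => ∏ i, θ (x i) ^ (Multiplicative.toAdd c i)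
      map_one' := by simp
      map_mul' := by
        intro c d
        rw [← Finset.prod_mul_distrib]
        refine Finset.prod_congr rfl fun i _ => ?_
        rw [toAdd_mul, Pi.add_apply, zpow_add] }
  have hκ : ∀ c : Z, Multiplicative.toAdd (κ c).2 = Matrix.vecMul (Multiplicative.toAdd c) E := by
    intro c
    have h1 : (κ c).2 = ∏ i, (θ (x i)).2 ^ (Multiplicative.toAdd c i) := by
      show (∏ i, θ (x i) ^ (Multiplicative.toAdd c i)).2 = _
      rw [Prod.snd_prod]
      rfl
    rw [h1, toAdd_prod]
    funext j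
    rw [Finset.sum_apply]
    simp only [Matrix.vecMul, dotProduct]
    refine Finset.sum_congr rfl fun i _ => ?_
    rw [toAdd_zpow, Pi.smul_apply, hθ2, expo_eq, smul_eq_mul]
    rfl
  have hκi : ∀ i, κ (Multiplicative.ofAdd (Pi.single i 1)) = θ (x i) := by
    intro i
    show ∏ k, θ (x k) ^ ((Pi.single i 1 : Fin n → ℤ) k) = _
    rw [Finset.prod_eq_single i]
    · simp
    · intro k _ hk
      simp [hk]
    · simp
  let f : (Fin n → ℤ) →ₗ[ℤ] (Fin n → ℤ) := Matrix.vecMulLinear E
  have hf : ∀ c, f c = Matrix.vecMul c E := fun c => rfl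
  have hfinj : Function.Injective f := by
    rw [injective_iff_map_eq_zero]
    intro c hc
    exact Matrix.eq_zero_of_vecMul_eq_zero hdet hc
  let X := (Q × Z) ⧸ κ.range
  let Y := Multiplicative ((Fin n → ℤ) ⧸ LinearMap.range f)
  let ι : Q →* X := (QuotientGroup.mk' κ.range).comp (MonoidHom.inl Q Z)
  let ρ : Z →* Y := AddMonoidHom.toMultiplicative
    ((LinearMap.range f).mkQ.toAddMonoidHom)
  have hρ : ∀ c : Z, ρ c = Multiplicative.ofAdd ((LinearMap.range f).mkQ (Multiplicative.toAdd c)) :=
    fun c => rfl
  have hρ1 : ∀ c : Z, ρ c = 1 ↔ ∃ d, f d = Multiplicative.toAdd c := by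
    intro c
    rw [hρ, ofAdd_eq_one, Submodule.mkQ_apply, Submodule.Quotient.mk_eq_zero]
    rfl
  let π : X →* Y := QuotientGroup.lift κ.range (ρ.comp (MonoidHom.snd Q Z)) (by
    rintro _ ⟨c, rfl⟩
    show ρ (κ c).2 = 1
    rw [hρ1]
    exact ⟨Multiplicative.toAdd c, (hκ c).symm⟩)
  have hπ : ∀ q : Q, ∀ c : Z, π (QuotientGroup.mk' κ.range (q, c)) = ρ c := fun q c => rfl
  have hι : Function.Injective ι := by
    rw [injective_iff_map_eq_one]
    intro q hq
    have h1 : ((q, 1) : Q × Z) ∈ κ.range := (QuotientGroup.eq_one_iff _).1 hq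
    obtain ⟨c, hc⟩ := h1
    have h2 : f (Multiplicative.toAdd c) = 0 := by
      rw [hf, ← hκ, hc]
      rfl
    have h3 : c = 1 := by
      have := hfinj (h2.trans (map_zero f).symm)
      exact this
    rw [h3, map_one] at hc
    exact (congrArg Prod.fst hc).symm
  have hk : π.ker = ι.range := by
    ext y
    obtain ⟨⟨q, c⟩, rfl⟩ := QuotientGroup.mk'_surjective κ.range y
    constructor
    · intro h
      rw [MonoidHom.mem_ker, hπ, hρ1] at h
      obtain ⟨d, hd⟩ := h
      have h1 : (κ (Multiplicative.ofAdd d)).2 = c := by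
        apply Multiplicative.toAdd.injective
        rw [hκ, ← hd]
        rfl
      refine ⟨q * ((κ (Multiplicative.ofAdd d)).1)⁻¹, ?_⟩
      show QuotientGroup.mk' κ.range (q * ((κ (Multiplicative.ofAdd d)).1)⁻¹, 1) = _
      rw [QuotientGroup.mk'_eq_mk']
      refine ⟨κ (Multiplicative.ofAdd d), ⟨_, rfl⟩, ?_⟩
      ext
      · simp
      · simp [h1]
    · rintro ⟨q', hq'⟩
      rw [← hq', MonoidHom.mem_ker]
      show ρ 1 = 1
      rw [map_one]
  have hπs : Function.Surjective π := by
    intro y
    obtain ⟨c, hc⟩ := Submodule.mkQ_surjective (LinearMap.range f) (Multiplicative.toAdd y)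
    refine ⟨QuotientGroup.mk' κ.range (1, Multiplicative.ofAdd c), ?_⟩
    rw [hπ, hρ]
    exact congrArg Multiplicative.ofAdd hc
  -- the order of `Y`
  have hcardY : Nat.card Y = E.det.natAbs := by
    let e : (Fin n → ℤ) ≃ₗ[ℤ] LinearMap.range f := LinearEquiv.ofInjective f hfinj
    have h1 := Submodule.natAbs_det_equiv (LinearMap.range f) e
    have h2 : (LinearMap.range f).subtype ∘ₗ AddMonoidHom.toIntLinearMap
        (e : (Fin n → ℤ) →+ LinearMap.range f) = f := by
      ext c k
      rfl
    rw [h2] at h1
    have h3 : LinearMap.det f = E.det := by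
      have h4 : f = Matrix.toLin' E.transpose := by
        ext c k
        simp [hf, Matrix.toLin'_apply]
      rw [h4, LinearMap.det_toLin', Matrix.det_transpose]
    rw [h3] at h1
    exact h1.symm
  have hYfin : Finite Y := by
    apply Nat.finite_of_card_ne_zero
    rw [hcardY]
    exact Int.natAbs_ne_zero.2 hdet
  have hXfin : Finite X := by
    have h1 : Finite π.ker := by
      rw [hk]
      exact Set.finite_range ι
    have h2 : Finite (X ⧸ π.ker) :=
      Finite.of_equiv _ (QuotientGroup.quotientKerEquivOfSurjective π hπs).symm.toEquiv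
    exact Finite.of_subgroup_quotient π.ker
  let t : Fin n → X := fun j =>
    QuotientGroup.mk' κ.range (1, Multiplicative.ofAdd (Pi.single j 1))
  have hω : ∀ y : Wd G n, ev (ι.comp a) t y = QuotientGroup.mk' κ.range (θ y) := by
    intro y
    exact (ev_comp (QuotientGroup.mk' κ.range) ((MonoidHom.inl Q Z).comp a)
      (fun j => (1, Multiplicative.ofAdd (Pi.single j 1))) y).symm
  refine ⟨X, inferInstance, hXfin, ι, t, hι, ?_, ?_⟩
  · intro i
    rw [hω]
    exact (QuotientGroup.eq_one_iff _).2 ⟨_, hκi i⟩
  · set F := (Matrix.of fun i j : Fin n =>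
        (dr ((MonoidHom.toHomUnits (MonoidAlgebra.of ℤ X)).comp (ι.comp a))
          (fun j => MonoidHom.toHomUnits (MonoidAlgebra.of ℤ X) (t j)) (x i)).v j).det with hF
    -- the image in the group ring of `Y`
    have hFY : ∀ y : Y, (mapDomainRingHom ℤ π F).coeff y = 1 ∨
        (mapDomainRingHom ℤ π F).coeff y = -1 := by
      set f' : MonoidAlgebra ℤ X →+* MonoidAlgebra ℤ Y := mapDomainRingHom ℤ π with hf'
      let χ : X →* (MonoidAlgebra ℤ Y)ˣ := (MonoidHom.toHomUnits (MonoidAlgebra.of ℤ Y)).comp π
      have hχ : (Units.map (f' : MonoidAlgebra ℤ X →* MonoidAlgebra ℤ Y)).comp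
          (MonoidHom.toHomUnits (MonoidAlgebra.of ℤ X)) = χ := by
        refine MonoidHom.ext fun y => ?_
        apply Units.ext
        show f' (MonoidAlgebra.single y 1) = MonoidAlgebra.single (π y) 1
        rw [hf', mapDomainRingHom_apply, mapDomain_single]
      have hχι : χ.comp (ι.comp a) = 1 := by
        ext1 g
        have h1 : π (ι (a g)) = 1 := by
          have : ι (a g) ∈ π.ker := by rw [hk]; exact ⟨_, rfl⟩
          exact this
        show (MonoidHom.toHomUnits (MonoidAlgebra.of ℤ Y)) (π (ι (a g))) = 1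
        rw [h1, map_one]
      let DY : Matrix (Fin n) (Fin n) (MonoidAlgebra ℤ Y) := Matrix.of fun i j : Fin n =>
        (dr (1 : G →* (MonoidAlgebra ℤ Y)ˣ) (fun j => χ (t j)) (x i)).v j
      have hdetY : f' F = DY.det := by
        rw [hF, RingHom.map_det]
        congr 1
        ext1 i j
        show f' ((dr ((MonoidHom.toHomUnits (MonoidAlgebra.of ℤ X)).comp (ι.comp a))
          (fun j => MonoidHom.toHomUnits (MonoidAlgebra.of ℤ X) (t j)) (x i)).v j) = _
        rw [dr_map, ← MonoidHom.comp_assoc, hχ, hχι]
        show _ = (dr (1 : G →* (MonoidAlgebra ℤ Y)ˣ) (fun j => χ (t j)) (x i)).v j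
        rw [← hχ]
        rfl
      have hev : ∀ i, ev (1 : G →* (MonoidAlgebra ℤ Y)ˣ) (fun j => χ (t j)) (x i) = 1 := by
        intro i
        have h1 := ev_comp χ (ι.comp a) t (x i)
        rw [hχι, hω, show QuotientGroup.mk' κ.range (θ (x i)) = 1 from
          (QuotientGroup.eq_one_iff _).2 ⟨_, hκi i⟩, map_one] at h1
        exact h1.symm
      let PR : (MonoidAlgebra ℤ Y)ˣ →* Aff (MonoidAlgebra ℤ Y) (MonoidAlgebra ℤ Y) :=
        { toFun := fun u => ⟨(u : MonoidAlgebra ℤ Y) - 1, u⟩
          map_one' := by ext1 <;> simp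
          map_mul' := by
            intro u v
            ext1
            · simp only [Units.val_mul, Aff.mul_v, smul_eq_mul]
              ring
            · simp }
      have hker : ∀ i, ∑ j, DY i j * ((χ (t j) : MonoidAlgebra ℤ Y) - 1) = 0 := by
        intro i
        have h1 := ev_v (1 : G →* Aff (MonoidAlgebra ℤ Y) (MonoidAlgebra ℤ Y))
          (1 : G →* (MonoidAlgebra ℤ Y)ˣ) (fun g => rfl)
          (fun j => (χ (t j) : MonoidAlgebra ℤ Y) - 1) (fun j => χ (t j)) (x i)
        have h2 := ev_comp PR (1 : G →* (MonoidAlgebra ℤ Y)ˣ) (fun j => χ (t j)) (x i)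
        rw [hev, map_one, MonoidHom.comp_one] at h2
        have h3 := ev_comp (Aff.inU (MonoidAlgebra ℤ Y) (MonoidAlgebra ℤ Y))
          (1 : G →* (MonoidAlgebra ℤ Y)ˣ) (fun j => χ (t j)) (x i)
        rw [hev, map_one, MonoidHom.comp_one] at h3
        have h4 : (ev (1 : G →* Aff (MonoidAlgebra ℤ Y) (MonoidAlgebra ℤ Y))
          (fun j => (⟨(χ (t j) : MonoidAlgebra ℤ Y) - 1, χ (t j)⟩ :
            Aff (MonoidAlgebra ℤ Y) (MonoidAlgebra ℤ Y))) (x i)).v = 0 :=
          (congrArg Aff.v h2).symm
        have h5 : (ev (1 : G →* Aff (MonoidAlgebra ℤ Y) (MonoidAlgebra ℤ Y))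
          (fun j => (⟨0, χ (t j)⟩ :
            Aff (MonoidAlgebra ℤ Y) (MonoidAlgebra ℤ Y))) (x i)).v = 0 :=
          (congrArg Aff.v h3).symm
        rw [h4, h5, zero_add] at h1
        exact h1.symm
      have hmul : ∀ j, f' F * (χ (t j) : MonoidAlgebra ℤ Y) = f' F := by
        intro j
        have h1 : DY.mulVec (fun j => (χ (t j) : MonoidAlgebra ℤ Y) - 1) = 0 := by
          funext i
          exact hker i
        have h2 : (DY.adjugate * DY).mulVec (fun j => (χ (t j) : MonoidAlgebra ℤ Y) - 1) = 0 := by
          rw [← Matrix.mulVec_mulVec, h1, Matrix.mulVec_zero]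
        rw [Matrix.adjugate_mul, Matrix.smul_mulVec, Matrix.one_mulVec] at h2
        have h3 := congrFun h2 j
        rw [Pi.smul_apply, smul_eq_mul, Pi.zero_apply, mul_sub, mul_one, sub_eq_zero] at h3
        rw [hdetY, h3]
      have hall : ∀ y : Y, f' F * MonoidAlgebra.single y 1 = f' F := by
        let T : Subgroup Z :=
          { carrier := {c | f' F * MonoidAlgebra.single (ρ c) 1 = f' F}
            one_mem' := by
              show f' F * MonoidAlgebra.single (ρ 1) 1 = f' F
              rw [map_one, ← MonoidAlgebra.one_def, mul_one]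
            mul_mem' := by
              intro c d hc hd
              have hc' : f' F * MonoidAlgebra.single (ρ c) 1 = f' F := hc
              have hd' : f' F * MonoidAlgebra.single (ρ d) 1 = f' F := hd
              show f' F * MonoidAlgebra.single (ρ (c * d)) 1 = f' F
              have h1 : (MonoidAlgebra.single (ρ (c * d)) 1 : MonoidAlgebra ℤ Y) =
                  MonoidAlgebra.single (ρ c) 1 * MonoidAlgebra.single (ρ d) 1 := by
                rw [MonoidAlgebra.single_mul_single, map_mul, one_mul]
              rw [h1, ← mul_assoc, hc', hd']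
            inv_mem' := by
              intro c hc
              have hc' : f' F * MonoidAlgebra.single (ρ c) 1 = f' F := hc
              show f' F * MonoidAlgebra.single (ρ c⁻¹) 1 = f' F
              have h1 : (MonoidAlgebra.single (ρ c) 1 : MonoidAlgebra ℤ Y) *
                  MonoidAlgebra.single (ρ c⁻¹) 1 = 1 := by
                rw [MonoidAlgebra.single_mul_single, map_inv, mul_inv_cancel, one_mul,
                  MonoidAlgebra.one_def]
              conv_lhs => rw [← hc']
              rw [mul_assoc, h1, mul_one] }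
        have hT : ∀ c : Z, c ∈ T := by
          intro c
          have h1 : c = ∏ j, (Multiplicative.ofAdd (Pi.single j 1) : Z) ^
              (Multiplicative.toAdd c j) := by
            apply Multiplicative.toAdd.injective
            rw [toAdd_prod]
            funext k
            rw [Finset.sum_apply, Finset.sum_eq_single k]
            · simp
            · intro j _ hj
              simp [hj.symm]
            · simp
          rw [h1]
          refine Subgroup.prod_mem _ fun j _ => Subgroup.zpow_mem _ ?_ _
          exact hmul j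
        intro y
        obtain ⟨c, hc⟩ := Submodule.mkQ_surjective (LinearMap.range f) (Multiplicative.toAdd y)
        have h1 : f' F * MonoidAlgebra.single (ρ (Multiplicative.ofAdd c)) 1 = f' F :=
          hT (Multiplicative.ofAdd c)
        have h2 : ρ (Multiplicative.ofAdd c) = y := congrArg Multiplicative.ofAdd hc
        rw [h2] at h1
        exact h1
      have hconst : ∀ y : Y, (f' F).coeff y = (f' F).coeff 1 := by
        intro y
        conv_lhs => rw [← hall y]
        rw [coeff_mul_single_apply, mul_inv_cancel, mul_one]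
      -- the augmentation
      let ε : MonoidAlgebra ℤ Y →+* ℤ := (MonoidAlgebra.lift ℤ ℤ Y (1 : Y →* ℤ)).toRingHom
      have hε : ∀ (y : Y) (r : ℤ), ε (MonoidAlgebra.single y r) = r := by
        intro y r
        show MonoidAlgebra.lift ℤ ℤ Y (1 : Y →* ℤ) (MonoidAlgebra.single y r) = r
        rw [lift_single]
        simp
      have hε1 : ε (f' F) = E.det := by
        have h1 : ε (f' F) = (ε.comp f') F := rfl
        rw [h1, hF, RingHom.map_det]
        congr 1
        ext1 i j
        show (ε.comp f') ((dr ((MonoidHom.toHomUnits (MonoidAlgebra.of ℤ X)).comp (ι.comp a))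
          (fun j => MonoidHom.toHomUnits (MonoidAlgebra.of ℤ X) (t j)) (x i)).v j) = _
        have h2 : (Units.map ((ε.comp f' : MonoidAlgebra ℤ X →+* ℤ) :
            MonoidAlgebra ℤ X →* ℤ)).comp (MonoidHom.toHomUnits (MonoidAlgebra.of ℤ X)) = 1 := by
          refine MonoidHom.ext fun y => ?_
          apply Units.ext
          show ε (f' (MonoidAlgebra.single y 1)) = 1
          rw [hf', mapDomainRingHom_apply, mapDomain_single, hε]
        rw [dr_map, ← MonoidHom.comp_assoc, h2, MonoidHom.one_comp]
        have h3 : (fun i : Fin n => Units.map ((ε.comp f' : MonoidAlgebra ℤ X →+* ℤ) :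
            MonoidAlgebra ℤ X →* ℤ) ((MonoidHom.toHomUnits (MonoidAlgebra.of ℤ X)) (t i))) =
            fun _ => 1 := by
          funext i
          exact DFunLike.congr_fun h2 (t i)
        rw [h3, dr_trivial, expo_eq]
        rfl
      have := Fintype.ofFinite Y
      have hε2 : ε (f' F) = Nat.card Y * (f' F).coeff 1 := by
        have h1 : f' F = ∑ y : Y, MonoidAlgebra.single y ((f' F).coeff 1) := by
          apply MonoidAlgebra.coeff_injective
          ext g
          rw [MonoidAlgebra.coeff_sum, Finsupp.finsetSum_apply, Finset.sum_eq_single g]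
          · simp [hconst g]
          · intro q _ hq
            simp [hq]
          · simp
        conv_lhs => rw [h1]
        rw [map_sum, Finset.sum_congr rfl (fun y _ => hε y _), Finset.sum_const, Finset.card_univ,
          Nat.card_eq_fintype_card, nsmul_eq_mul]
      have hc : (E.det.natAbs : ℤ) * (f' F).coeff 1 = E.det := by
        have h1 := hε1.symm.trans hε2
        rw [hcardY] at h1
        exact h1.symm
      intro y
      rw [hconst]
      rcases Int.natAbs_eq E.det with h | h
      · left
        have h1 : E.det * (f' F).coeff 1 = E.det * 1 := by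
          rw [← h] at hc
          rw [hc, mul_one]
        exact mul_left_cancel₀ hdet h1
      · right
        have h1 : E.det * (f' F).coeff 1 = E.det * (-1) := by
          rw [mul_neg, mul_one]
          have h2 : (E.det.natAbs : ℤ) = - E.det := by omega
          rw [h2] at hc
          linarith
        exact mul_left_cancel₀ hdet h1
    refine ⟨fun s hs => inj_mod_p hQ ι π hι hk hπs (red p X F) ?_ s hs⟩
    intro h
    rw [← red_map] at h
    have h1 := congrArg (fun z => z.coeff (1 : Y)) h
    simp only [red, coeff_mapRingHom, coeff_zero, Finsupp.zero_apply, eq_intCast] at h1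
    rcases hFY 1 with h2 | h2
    · rw [h2] at h1
      simp at h1
    · rw [h2] at h1
      simp at h1


/-- Nonsingular systems over groups with an abelian normal subgroup whose quotient is a finite
abelian `p`-group. -/
theorem core {G : Type u} [Group G] (A : Subgroup G) [A.Normal]
    (hA : ∀ a ∈ A, ∀ b ∈ A, a * b = b * a) (hG : ∀ g h : G, g * h * g⁻¹ * h⁻¹ ∈ A)
    [Finite (G ⧸ A)] {p : ℕ} [Fact p.Prime] (hQ : IsPGroup p (G ⧸ A)) {n : ℕ}
    (x : Fin n → Wd G n) (hdet : (Matrix.of fun i j : Fin n => expSum j (x i)).det ≠ 0) :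
    ∃ (H : Type u) (_ : Group H), derivedSeries H 2 = ⊥ ∧ ∃ φ : G →* H, Function.Injective φ ∧
      ∃ h : Fin n → H, ∀ i, ev φ h (x i) = 1 := by
  let _ : CommGroup (G ⧸ A) :=
    { (inferInstance : Group (G ⧸ A)) with
      mul_comm := by
        intro a b
        obtain ⟨g, rfl⟩ := QuotientGroup.mk'_surjective A a
        obtain ⟨h, rfl⟩ := QuotientGroup.mk'_surjective A b
        rw [← map_mul, ← map_mul, ← mul_inv_eq_one, ← map_inv, ← map_mul]
        apply (QuotientGroup.eq_one_iff _).2
        have := hG g h
        rw [mul_inv_rev]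
        simpa [mul_assoc] using this }
  have hAc : IsMulCommutative A := isMulCommutative_iff.2 fun a b => Subtype.ext (hA a a.2 b b.2)
  let mk : G →* G ⧸ A := QuotientGroup.mk' A
  obtain ⟨X, _, _, ι, t, hι, hrel, D⟩ := exists_overgroup hQ mk x hdet
  obtain ⟨V, _, _, j, hdiv, hj, hjs⟩ := D.exists_module hQ
  let R := MonoidAlgebra ℤ X
  let U : X →* Rˣ := MonoidHom.toHomUnits (MonoidAlgebra.of ℤ X)
  let C := CharacterModule (Additive A)
  let W := C → V
  -- the cocycle
  let τ : G ⧸ A → G := Quotient.out
  have hτ : ∀ q, mk (τ q) = q := fun q => Quotient.out_eq q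
  have hmem : ∀ (g : G) (q : G ⧸ A), τ q * g * (τ (q * mk g))⁻¹ ∈ A := by
    intro g q
    apply (QuotientGroup.eq_one_iff _).1
    show mk (τ q * g * (τ (q * mk g))⁻¹) = 1
    rw [map_mul, map_mul, map_inv, hτ, hτ, mul_inv_cancel]
  let k : G → G ⧸ A → A := fun g q => ⟨_, hmem g q⟩
  have hk : ∀ g h q, k (g * h) q = k g q * k h (q * mk g) := by
    intro g h q
    apply Subtype.ext
    show τ q * (g * h) * (τ (q * mk (g * h)))⁻¹ =
      τ q * g * (τ (q * mk g))⁻¹ * (τ (q * mk g) * h * (τ (q * mk g * mk h))⁻¹)
    rw [map_mul, mul_assoc q]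
    group
  let κ : G → C → (G ⧸ A) → TT := fun g c q => c (Additive.ofMul (k g q))
  have hκ : ∀ g h c, κ (g * h) c = κ g c + fun q => κ h c (q * mk g) := by
    intro g h c
    funext q
    show c (Additive.ofMul (k (g * h) q)) = c (Additive.ofMul (k g q)) +
      c (Additive.ofMul (k h (q * mk g)))
    rw [hk, ofMul_mul, map_add]
  have hκ1 : ∀ c, κ 1 c = 0 := by
    intro c
    have h := hκ 1 1 c
    rw [mul_one, map_one] at h
    simp only [mul_one] at h
    have h2 : κ 1 c + 0 = κ 1 c + κ 1 c := by rw [add_zero]; exact h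
    exact (add_left_cancel h2).symm
  let Φ : G →* Aff R W :=
    { toFun := fun g => ⟨fun c => j (κ g c), U (ι (mk g))⟩
      map_one' := by
        ext1
        · funext c
          show j (κ 1 c) = 0
          rw [hκ1, map_zero]
        · show U (ι (mk 1)) = 1
          rw [map_one, map_one, map_one]
      map_mul' := by
        intro g h
        ext1
        · funext c
          show j (κ (g * h) c) = j (κ g c) + MonoidAlgebra.single (ι (mk g)) (1 : ℤ) • j (κ h c)
          rw [hκ, map_add, hjs]
        · show U (ι (mk (g * h))) = U (ι (mk g)) * U (ι (mk h))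
          rw [map_mul, map_mul, map_mul] }
  have hΦu : ∀ g, (Φ g).u = (U.comp (ι.comp mk)) g := fun g => rfl
  have hΦinj : Function.Injective Φ := by
    rw [injective_iff_map_eq_one]
    intro g hg
    have h1 : U (ι (mk g)) = 1 := congrArg Aff.u hg
    have h2 : ι (mk g) = 1 := by
      have h3 : MonoidAlgebra.of ℤ X (ι (mk g)) = MonoidAlgebra.of ℤ X 1 := by
        rw [map_one]
        exact congrArg Units.val h1
      exact MonoidAlgebra.of_injective h3
    have h3 : mk g = 1 := hι (h2.trans (map_one ι).symm)
    have h4 : ∀ c : C, c (Additive.ofMul (k g 1)) = 0 := by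
      intro c
      have h5 : j (κ g c) = 0 := congrFun (congrArg Aff.v hg) c
      have h6 : κ g c = 0 := hj (h5.trans (map_zero j).symm)
      exact congrFun h6 1
    have h5 : k g 1 = 1 := by
      have := CharacterModule.eq_zero_of_character_apply h4
      exact this
    have h6 : τ 1 * g * (τ (1 * mk g))⁻¹ = 1 := congrArg Subtype.val h5
    rw [h3, one_mul, mul_inv_eq_one] at h6
    exact mul_eq_left.1 h6
  -- the solution
  let Dm : Matrix (Fin n) (Fin n) R := Matrix.of fun i l : Fin n =>
    (dr (U.comp (ι.comp mk)) (fun l => U (t l)) (x i)).v l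
  let c0 : Fin n → W := fun i => (ev Φ (fun l => (⟨0, U (t l)⟩ : Aff R W)) (x i)).v
  have hdivW : ∀ y : W, ∃ y' : W, Dm.det • y' = y := by
    intro y
    choose g hg using hdiv
    exact ⟨fun c => g (y c), funext fun c => hg (y c)⟩
  choose s hs using fun i => hdivW (-(c0 i))
  let m : Fin n → W := fun l => ∑ i, Dm.adjugate l i • s i
  have hm : ∀ i, ∑ l, Dm i l • m l = -(c0 i) := by
    intro i
    calc ∑ l, Dm i l • m l = ∑ l, ∑ i', (Dm i l * Dm.adjugate l i') • s i' := by
          refine Finset.sum_congr rfl fun l _ => ?_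
          rw [Finset.smul_sum]
          refine Finset.sum_congr rfl fun i' _ => ?_
          rw [mul_smul]
      _ = ∑ i', (Dm * Dm.adjugate) i i' • s i' := by
          rw [Finset.sum_comm]
          refine Finset.sum_congr rfl fun i' _ => ?_
          rw [Matrix.mul_apply, Finset.sum_smul]
      _ = Dm.det • s i := by
          rw [Matrix.mul_adjugate, Finset.sum_eq_single i]
          · simp
          · intro i' _ hi'
            simp [Matrix.one_apply_ne hi'.symm]
          · simp
      _ = -(c0 i) := hs i
  refine ⟨Aff R W, inferInstance, Aff.ds, Φ, hΦinj, fun l => ⟨m l, U (t l)⟩, fun i => ?_⟩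
  ext1
  · rw [ev_v Φ (U.comp (ι.comp mk)) hΦu m (fun l => U (t l)) (x i)]
    show c0 i + ∑ l, Dm i l • m l = 0
    rw [hm, add_neg_cancel]
  · rw [ev_u Φ (U.comp (ι.comp mk)) hΦu m (fun l => U (t l)) (x i)]
    have := ev_comp U (ι.comp mk) t (x i)
    rw [hrel, map_one] at this
    exact this.symm

end Run7.h476
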