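import Pool.Agent.Run7.h476.Aff

/-!
Systems of equations over a group with a normal subgroup of `q`-power index.
-/

set_option autoImplicit false
set_option linter.unusedSectionVars false

namespace Run7.h476

open Monoid
open scoped IsMulCommutative commutatorElement

universe u v w z

section abelian

variable {G : Type w} [Group G] {n : ℕ}

theorem ev_one {Z : Type v} [CommGroup Z] (t : Fin n → Z) (x : Wd G n) :
    ev (1 : G →* Z) t x = ∏ i, t i ^ expSum i x := by
  let F : Multiplicative (Fin n → ℤ) →* Z :=
    { toFun := fun c => ∏ i, t i ^ (Multiplicative.toAdd c i)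
      map_one' := by simp
      map_mul' := by
        intro c d
        rw [← Finset.prod_mul_distrib]
        refine Finset.prod_congr rfl fun i _ => ?_
        rw [toAdd_mul, Pi.add_apply, zpow_add] }
  have h := ev_comp F (1 : G →* Multiplicative (Fin n → ℤ))
    (fun j => Multiplicative.ofAdd (Pi.single j 1)) x
  have h2 : (fun i : Fin n => F (Multiplicative.ofAdd (Pi.single i 1))) = t := by
    funext i
    show ∏ k, t k ^ ((Pi.single i (1 : ℤ) : Fin n → ℤ) k) = t i
    rw [Finset.prod_eq_single i]
    · simp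
    · intro k _ hk
      simp [hk]
    · simp
  rw [h2, MonoidHom.comp_one] at h
  rw [← h]
  show ∏ i, t i ^ (Multiplicative.toAdd (expo G n x) i) = _
  exact Finset.prod_congr rfl fun i _ => by rw [expo_eq]

theorem ev_central {P : Type v} [Group P] (φ : G →* P) (t : Fin n → P)
    (c : Fin n → Subgroup.center P) (x : Wd G n) :
    ev φ (fun i => t i * (c i : P)) x =
      ev φ t x * ((ev (1 : G →* Subgroup.center P) c x : Subgroup.center P) : P) := by
  let Ψ : Wd G n →* P :=
    { toFun := fun x => ev φ t x * ((ev (1 : G →* Subgroup.center P) c x : Subgroup.center P) : P)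
      map_one' := by simp
      map_mul' := by
        intro a b
        have h := Subgroup.mem_center_iff.1 (ev (1 : G →* Subgroup.center P) c a).2 (ev φ t b)
        rw [map_mul, map_mul, Subgroup.coe_mul]
        generalize ((ev (1 : G →* Subgroup.center P) c a : Subgroup.center P) : P) = A at *
        generalize ((ev (1 : G →* Subgroup.center P) c b : Subgroup.center P) : P) = B at *
        calc ev φ t a * ev φ t b * (A * B)
            = ev φ t a * (ev φ t b * A) * B := by simp only [mul_assoc]
          _ = ev φ t a * (A * ev φ t b) * B := by rw [h]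
          _ = _ := by simp only [mul_assoc] }
  have h : ev φ (fun i => t i * (c i : P)) = Ψ := by
    apply Coprod.hom_ext
    · refine MonoidHom.ext fun g => ?_
      show ev φ (fun i => t i * (c i : P)) (Coprod.inl g) = ev φ t (Coprod.inl g) *
        ((ev (1 : G →* Subgroup.center P) c (Coprod.inl g) : Subgroup.center P) : P)
      simp
    · refine FreeGroup.ext_hom _ _ fun i => ?_
      show ev φ (fun i => t i * (c i : P)) (Coprod.inr (FreeGroup.of i)) =
        ev φ t (Coprod.inr (FreeGroup.of i)) *
        ((ev (1 : G →* Subgroup.center P) c (Coprod.inr (FreeGroup.of i)) :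
          Subgroup.center P) : P)
      simp
  rw [h]
  rfl

/-- An element of a finite `q`-group killed by a nonsingular matrix. -/
theorem act_inj {q : ℕ} [Fact q.Prime] {Z : Type v} [CommGroup Z] [Finite Z] (hZ : IsPGroup q Z)
    (E : Matrix (Fin n) (Fin n) ℤ) (hE : ¬ (q : ℤ) ∣ E.det) (c : Fin n → Z)
    (h : ∀ i, ∏ j, c j ^ E i j = 1) : c = 1 := by
  funext k
  have h1 : c k ^ E.det = 1 := by
    have h2 : ∏ i, (∏ j, c j ^ E i j) ^ E.adjugate k i = 1 := by
      refine Finset.prod_eq_one fun i _ => ?_
      rw [h, one_zpow]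
    have h3 : ∏ i, (∏ j, c j ^ E i j) ^ E.adjugate k i =
        ∏ j, c j ^ (E.adjugate * E) k j := by
      have h4 : ∀ i, (∏ j, c j ^ E i j) ^ E.adjugate k i =
          ∏ j, c j ^ (E.adjugate k i * E i j) := by
        intro i
        rw [← Finset.prod_zpow]
        refine Finset.prod_congr rfl fun j _ => ?_
        rw [← zpow_mul, mul_comm]
      rw [Finset.prod_congr rfl fun i _ => h4 i, Finset.prod_comm]
      refine Finset.prod_congr rfl fun j _ => ?_
      rw [Matrix.mul_apply]
      have h5 : ∀ s : Finset (Fin n), ∏ i ∈ s, c j ^ (E.adjugate k i * E i j) =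
          c j ^ ∑ i ∈ s, E.adjugate k i * E i j := by
        intro s
        classical
        induction s using Finset.induction_on with
        | empty => simp
        | insert a s ha ih => rw [Finset.prod_insert ha, Finset.sum_insert ha, zpow_add, ih]
      exact h5 _
    rw [h3, Matrix.adjugate_mul, Finset.prod_eq_single k] at h2
    · simpa using h2
    · intro j _ hj
      simp [Matrix.one_apply_ne hj.symm]
    · simp
  obtain ⟨e, he⟩ := hZ (c k)
  have hcop : IsCoprime E.det ((q : ℤ) ^ e) := by
    apply IsCoprime.pow_right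
    exact ((Nat.prime_iff_prime_int.1 Fact.out).coprime_iff_not_dvd.2 hE).symm
  obtain ⟨a, b, hab⟩ := hcop
  calc c k = c k ^ (a * E.det + b * (q : ℤ) ^ e) := by rw [hab, zpow_one]
    _ = 1 := by
      rw [zpow_add, mul_comm a, mul_comm b, zpow_mul, zpow_mul, h1, one_zpow, one_mul]
      have : (c k) ^ ((q : ℤ) ^ e) = 1 := by
        have h6 : ((q : ℤ) ^ e) = ((q ^ e : ℕ) : ℤ) := by push_cast; rfl
        rw [h6, zpow_natCast, he]
      rw [this, one_zpow]

/-- Uniqueness of solutions in finite `q`-groups. -/
theorem uniq {q : ℕ} [Fact q.Prime] (x : Fin n → Wd G n)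
    (hdet : ¬ (q : ℤ) ∣ (Matrix.of fun i j : Fin n => expSum j (x i)).det) :
    ∀ (N : ℕ) (P : Type v) [Group P] [Finite P], Nat.card P ≤ N → IsPGroup q P →
      ∀ (φ : G →* P) (t t' : Fin n → P), (∀ i, ev φ t (x i) = ev φ t' (x i)) → t = t' := by
  intro N
  induction N with
  | zero =>
    intro P _ _ hN
    exact absurd hN (by have := Nat.card_pos (α := P); omega)
  | succ N ih =>
    intro P _ _ hN hP φ t t' h
    rcases subsingleton_or_nontrivial P with hs | hs
    · exact Subsingleton.elim _ _
    · have := IsPGroup.center_nontrivial hP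
      have hcard : Nat.card (P ⧸ Subgroup.center P) ≤ N := by
        have h1 := Subgroup.card_eq_card_quotient_mul_card_subgroup (Subgroup.center P)
        have h2 : 1 < Nat.card (Subgroup.center P) := Finite.one_lt_card
        have h3 : 0 < Nat.card (P ⧸ Subgroup.center P) := Nat.card_pos
        nlinarith
      let mk := QuotientGroup.mk' (Subgroup.center P)
      have h1 := ih (P ⧸ Subgroup.center P) hcard (hP.to_quotient _) (mk.comp φ)
        (fun i => mk (t i)) (fun i => mk (t' i)) (fun i => by
          rw [← ev_comp, ← ev_comp, h])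
      have h2 : ∀ i, (t i)⁻¹ * t' i ∈ Subgroup.center P := by
        intro i
        rw [← QuotientGroup.eq]
        exact congrFun h1 i
      let c : Fin n → Subgroup.center P := fun i => ⟨_, h2 i⟩
      have h3 : t' = fun i => t i * (c i : P) := by
        funext i
        simp [c]
      have h4 : c = 1 := by
        apply act_inj (q := q) (hP.to_subgroup _) _ hdet c
        intro i
        have h5 := h i
        rw [h3, ev_central, left_eq_mul] at h5
        have h6 : ev (1 : G →* Subgroup.center P) c (x i) = 1 := Subtype.ext h5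
        rw [ev_one] at h6
        exact h6
      rw [h3, h4]
      funext i
      simp

/-- Existence of solutions in finite `q`-groups. -/
theorem exists_sol {q : ℕ} [Fact q.Prime] (x : Fin n → Wd G n)
    (hdet : ¬ (q : ℤ) ∣ (Matrix.of fun i j : Fin n => expSum j (x i)).det)
    (P : Type v) [Group P] [Finite P] (hP : IsPGroup q P) (φ : G →* P) :
    ∃ t : Fin n → P, ∀ i, ev φ t (x i) = 1 := by
  have hinj : Function.Injective (fun (t : Fin n → P) (i : Fin n) => ev φ t (x i)) := by
    intro t t' h
    exact uniq x hdet (Nat.card P) P le_rfl hP φ t t' fun i => congrFun h i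
  obtain ⟨t, ht⟩ := (Finite.injective_iff_surjective.1 hinj) 1
  exact ⟨t, fun i => congrFun ht i⟩

end abelian

/-! ### Wreath products -/

/-- the wreath product -/
@[ext] structure Wr (P : Type u) (S : Type v) where
  f : S → P
  a : S

namespace Wr

variable {P : Type u} [Group P] {S : Type v} [Group S]

instance : Mul (Wr P S) := ⟨fun x y => ⟨fun s => x.f s * y.f (s * x.a), x.a * y.a⟩⟩
instance : One (Wr P S) := ⟨⟨fun _ => 1, 1⟩⟩
instance : Inv (Wr P S) := ⟨fun x => ⟨fun s => (x.f (s * x.a⁻¹))⁻¹, x.a⁻¹⟩⟩

@[simp] lemma mul_f (x y : Wr P S) (s : S) : (x * y).f s = x.f s * y.f (s * x.a) := rfl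
@[simp] lemma mul_a (x y : Wr P S) : (x * y).a = x.a * y.a := rfl
@[simp] lemma one_f (s : S) : (1 : Wr P S).f s = 1 := rfl
@[simp] lemma one_a : (1 : Wr P S).a = 1 := rfl
@[simp] lemma inv_f (x : Wr P S) (s : S) : (x⁻¹).f s = (x.f (s * x.a⁻¹))⁻¹ := rfl
@[simp] lemma inv_a (x : Wr P S) : (x⁻¹).a = x.a⁻¹ := rfl

instance : Group (Wr P S) := Group.ofLeftAxioms
  (fun x y z => by
    ext
    · simp [mul_assoc]
    · simp [mul_assoc])
  (fun x => by ext <;> simp)
  (fun x => by ext <;> simp)

/-- the projection -/
def aHom (P : Type u) [Group P] (S : Type v) [Group S] : Wr P S →* S where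
  toFun x := x.a
  map_one' := rfl
  map_mul' _ _ := rfl

/-- functoriality -/
def map (S : Type v) [Group S] {P' : Type w} [Group P'] (θ : P →* P') : Wr P S →* Wr P' S where
  toFun x := ⟨fun s => θ (x.f s), x.a⟩
  map_one' := by ext <;> simp
  map_mul' x y := by ext <;> simp

@[simp] lemma map_f {P' : Type w} [Group P'] (θ : P →* P') (x : Wr P S) (s : S) :
    (map S θ x).f s = θ (x.f s) := rfl
@[simp] lemma map_a {P' : Type w} [Group P'] (θ : P →* P') (x : Wr P S) :
    (map S θ x).a = x.a := rfl

theorem ds (d e : ℕ) (hS : derivedSeries S d = ⊥) (hP : derivedSeries P e = ⊥) :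
    derivedSeries (Wr P S) (d + e) = ⊥ := by
  have key : ∀ k : ℕ, ∀ x ∈ derivedSeries (Wr P S) (d + k),
      x.a = 1 ∧ ∀ s, x.f s ∈ derivedSeries P k := by
    intro k
    induction k with
    | zero =>
      intro x hx
      refine ⟨?_, fun s => by simp⟩
      have h1 : aHom P S x ∈ derivedSeries S d :=
        map_derivedSeries_le_derivedSeries (aHom P S) d ⟨x, hx, rfl⟩
      rw [hS, Subgroup.mem_bot] at h1
      exact h1
    | succ k ih =>
      let T : Subgroup (Wr P S) :=
        { carrier := {x | x.a = 1 ∧ ∀ s, x.f s ∈ derivedSeries P (k + 1)}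
          one_mem' := ⟨rfl, fun s => Subgroup.one_mem _⟩
          mul_mem' := by
            rintro x y ⟨hx1, hx2⟩ ⟨hy1, hy2⟩
            refine ⟨by simp [hx1, hy1], fun s => ?_⟩
            rw [mul_f]
            exact Subgroup.mul_mem _ (hx2 _) (hy2 _)
          inv_mem' := by
            rintro x ⟨hx1, hx2⟩
            refine ⟨by simp [hx1], fun s => ?_⟩
            rw [inv_f]
            exact Subgroup.inv_mem _ (hx2 _) }
      have hT : derivedSeries (Wr P S) (d + (k + 1)) ≤ T := by
        rw [← add_assoc, derivedSeries_succ, Subgroup.commutator_le]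
        intro x hx y hy
        obtain ⟨hx1, hx2⟩ := ih x hx
        obtain ⟨hy1, hy2⟩ := ih y hy
        refine ⟨by simp [commutatorElement_def, hx1, hy1], fun s => ?_⟩
        have : (⁅x, y⁆ : Wr P S).f s = ⁅x.f s, y.f s⁆ := by
          simp [commutatorElement_def, hx1, hy1]
        rw [this, derivedSeries_succ]
        exact Subgroup.commutator_mem_commutator (hx2 s) (hy2 s)
      exact fun x hx => hT hx
  rw [eq_bot_iff]
  intro x hx
  obtain ⟨h1, h2⟩ := key e x hx
  rw [Subgroup.mem_bot]
  ext s
  · have := h2 s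
    rw [hP, Subgroup.mem_bot] at this
    simpa using this
  · simpa using h1

instance [Finite P] [Finite S] : Finite (Wr P S) :=
  Finite.of_injective (fun x : Wr P S => (x.f, x.a)) fun x y h => by
    ext s
    · exact congrFun (congrArg Prod.fst h) s
    · exact congrArg Prod.snd h

end Wr

section transfer

variable {G : Type u} [Group G] (N : Subgroup G) [N.Normal]

/-- the transversal -/
noncomputable def tv (q : G ⧸ N) : G := Quotient.out q

theorem mk_tv (q : G ⧸ N) : QuotientGroup.mk' N (tv N q) = q := Quotient.out_eq q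

theorem cocycle_mem (g : G) (q : G ⧸ N) :
    tv N q * g * (tv N (q * QuotientGroup.mk' N g))⁻¹ ∈ N := by
  apply (QuotientGroup.eq_one_iff _).1
  show QuotientGroup.mk' N (tv N q * g * (tv N (q * QuotientGroup.mk' N g))⁻¹) = 1
  rw [map_mul, map_mul, map_inv, mk_tv, mk_tv, mul_inv_cancel]

/-- the embedding in the wreath product -/
noncomputable def kk : G →* Wr N (G ⧸ N) where
  toFun g := ⟨fun q => ⟨_, cocycle_mem N g q⟩, QuotientGroup.mk' N g⟩
  map_one' := by
    ext
    · simp
    · simp
  map_mul' g h := by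
    ext q
    · show tv N q * (g * h) * (tv N (q * QuotientGroup.mk' N (g * h)))⁻¹ =
        tv N q * g * (tv N (q * QuotientGroup.mk' N g))⁻¹ *
        (tv N (q * QuotientGroup.mk' N g) * h *
          (tv N (q * QuotientGroup.mk' N g * QuotientGroup.mk' N h))⁻¹)
      rw [map_mul, mul_assoc q]
      group
    · show QuotientGroup.mk' N (g * h) = QuotientGroup.mk' N g * QuotientGroup.mk' N h
      rw [map_mul]

theorem kk_inj {P : Type v} [Group P] (φ : N →* P) (hφ : Function.Injective φ) :
    Function.Injective ((Wr.map (G ⧸ N) φ).comp (kk N)) := by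
  rw [injective_iff_map_eq_one]
  intro g hg
  have h1 : QuotientGroup.mk' N g = 1 := congrArg Wr.a hg
  have h2 : φ ⟨_, cocycle_mem N g 1⟩ = 1 := congrFun (congrArg Wr.f hg) 1
  have h3 : tv N 1 * g * (tv N (1 * QuotientGroup.mk' N g))⁻¹ = 1 :=
    congrArg Subtype.val (hφ (h2.trans (map_one φ).symm))
  rw [h1, one_mul, mul_inv_eq_one] at h3
  exact mul_eq_left.1 h3

theorem transfer {q : ℕ} [Fact q.Prime] [Finite (G ⧸ N)] (hq : IsPGroup q (G ⧸ N)) (d e : ℕ)
    (hd : derivedSeries (G ⧸ N) d = ⊥)
    (hN : ∀ (k : ℕ) (y : Fin k → Wd N k),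
      (Matrix.of fun i j : Fin k => expSum j (y i)).det ≠ 0 →
      ∃ (H : Type u) (_ : Group H), derivedSeries H e = ⊥ ∧ ∃ φ : N →* H, Function.Injective φ ∧
        ∃ h : Fin k → H, ∀ i, ev φ h (y i) = 1)
    {n : ℕ} (x : Fin n → Wd G n)
    (hdet : ¬ (q : ℤ) ∣ (Matrix.of fun i j : Fin n => expSum j (x i)).det) :
    ∃ (H : Type u) (_ : Group H), derivedSeries H (d + e) = ⊥ ∧
      ∃ φ : G →* H, Function.Injective φ ∧ ∃ h : Fin n → H, ∀ i, ev φ h (x i) = 1 := by
  let S := G ⧸ N
  have := Fintype.ofFinite S
  obtain ⟨b, hb⟩ := exists_sol x hdet S hq (QuotientGroup.mk' N)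
  let k := Fintype.card (Fin n × S)
  let ee : Fin k ≃ Fin n × S := (Fintype.equivFin (Fin n × S)).symm
  let T : Fin n → Wr (Wd N k) S := fun j => ⟨fun s => Coprod.inr (FreeGroup.of (ee.symm (j, s))), b j⟩
  let Φ : G →* Wr (Wd N k) S := (Wr.map S Coprod.inl).comp (kk N)
  let y : Fin k → Wd N k := fun a => (ev Φ T (x (ee a).1)).f (ee a).2
  have hya : ∀ i, (ev Φ T (x i)).a = 1 := by
    intro i
    have h1 := ev_comp (Wr.aHom (Wd N k) S) Φ T (x i)
    have h2 : (Wr.aHom (Wd N k) S).comp Φ = QuotientGroup.mk' N := by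
      ext g; rfl
    rw [h2] at h1
    exact h1.trans (hb i)
  have hyf : ∀ i s, (ev Φ T (x i)).f s = y (ee.symm (i, s)) := by
    intro i s
    show _ = (ev Φ T (x (ee (ee.symm (i, s))).1)).f (ee (ee.symm (i, s))).2
    rw [Equiv.apply_symm_apply]
  -- functoriality
  have hfun : ∀ {P : Type u} [Group P] (θ : Wd N k →* P), (∀ a, θ (y a) = 1) → ∀ i,
      ev ((Wr.map S θ).comp Φ) (fun j => Wr.map S θ (T j)) (x i) = 1 := by
    intro P _ θ hθ i
    rw [← ev_comp]
    ext s
    · show θ ((ev Φ T (x i)).f s) = 1
      rw [hyf, hθ]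
    · exact hya i
  -- the determinant
  have hydet : (Matrix.of fun i j : Fin k => expSum j (y i)).det ≠ 0 := by
    intro h0
    set M := (Matrix.of fun i j : Fin k => expSum j (y i)) with hM
    have h1 : (M.map (Int.castRingHom (ZMod q))).det = 0 := by
      have := RingHom.map_det (Int.castRingHom (ZMod q)) M
      rw [h0, map_zero] at this
      exact this.symm
    obtain ⟨v, hv0, hv⟩ := Matrix.exists_mulVec_eq_zero_iff.2 h1
    apply hv0
    let θ : (Fin k → ZMod q) → (Wd N k →* ULift.{u} (Multiplicative (ZMod q))) := fun v =>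
      ev 1 (fun a => ULift.up (Multiplicative.ofAdd (v a)))
    have hθ : ∀ v, (M.map (Int.castRingHom (ZMod q))).mulVec v = 0 → ∀ a, θ v (y a) = 1 := by
      intro v hv a
      show ev 1 (fun a => ULift.up (Multiplicative.ofAdd (v a))) (y a) = 1
      rw [ev_one]
      have h2 := congrFun hv a
      simp only [Matrix.mulVec, dotProduct, Pi.zero_apply, Matrix.map_apply, eq_intCast] at h2
      have h3 : ∀ s : Finset (Fin k), ∏ i ∈ s, (ULift.up (Multiplicative.ofAdd (v i)) :
          ULift.{u} (Multiplicative (ZMod q))) ^ expSum i (y a) =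
          ULift.up (Multiplicative.ofAdd (∑ i ∈ s, (M a i : ZMod q) * v i)) := by
        intro s
        classical
        induction s using Finset.induction_on with
        | empty => simp; rfl
        | insert b s hb ih =>
          rw [Finset.prod_insert hb, Finset.sum_insert hb, ih, ofAdd_add]
          have : (ULift.up (Multiplicative.ofAdd (v b)) :
              ULift.{u} (Multiplicative (ZMod q))) ^ expSum b (y a) =
              ULift.up (Multiplicative.ofAdd ((M a b : ZMod q) * v b)) := by
            rw [← zsmul_eq_mul]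
            rfl
          rw [this]
          rfl
      rw [h3, h2]
      rfl
    have hfin : Finite (Wr (ULift.{u} (Multiplicative (ZMod q))) S) := inferInstance
    have hp : IsPGroup q (Wr (ULift.{u} (Multiplicative (ZMod q))) S) := by
      intro g
      obtain ⟨m, hm⟩ := hq g.a
      refine ⟨m + 1, ?_⟩
      have h2 : ∀ g : Wr (ULift.{u} (Multiplicative (ZMod q))) S, g.a = 1 → ∀ j : ℕ, ∀ s,
          (g ^ j).f s = g.f s ^ j := by
        intro g hg j
        induction j with
        | zero => intro s; simp
        | succ j ih =>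
          intro s
          rw [pow_succ', Wr.mul_f, hg, mul_one, ih, pow_succ']
      have h3 : (g ^ q ^ m).a = 1 := by
        have := map_pow (Wr.aHom (ULift.{u} (Multiplicative (ZMod q))) S) g (q ^ m)
        exact this.trans hm
      rw [pow_succ, pow_mul]
      ext s
      · rw [h2 _ h3]
        generalize (g ^ q ^ m).f s = c
        have : c ^ q = 1 := by
          apply ULift.down_injective
          have h4 : (c ^ q).down = c.down ^ q := rfl
          rw [h4]
          apply Multiplicative.toAdd.injective
          rw [toAdd_pow, nsmul_eq_mul, ZMod.natCast_self, zero_mul]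
          rfl
        rw [this]
        rfl
      · have := map_pow (Wr.aHom (ULift.{u} (Multiplicative (ZMod q))) S) (g ^ q ^ m) q
        have h5 : ((g ^ q ^ m) ^ q).a = (g ^ q ^ m).a ^ q := this
        rw [h5, h3, one_pow]
        rfl
    have hcoef : ∀ v, (Wr.map S (θ v)).comp Φ = (Wr.map S (θ 0)).comp Φ := by
      intro v
      refine MonoidHom.ext fun g => Wr.ext (funext fun s => ?_) rfl
      show ((θ v) (Coprod.inl _)) = ((θ 0) (Coprod.inl _))
      simp [θ]
    have hu := uniq x hdet _ (Wr (ULift.{u} (Multiplicative (ZMod q))) S) le_rfl hp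
      ((Wr.map S (θ 0)).comp Φ) (fun j => Wr.map S (θ v) (T j)) (fun j => Wr.map S (θ 0) (T j))
      (fun i => by
        have e1 := hfun (θ v) (hθ v hv) i
        have e2 := hfun (θ 0) (hθ 0 (Matrix.mulVec_zero _)) i
        rw [hcoef v] at e1
        rw [e1, e2])
    funext a
    have h4 := congrFun (congrArg Wr.f (congrFun hu (ee a).1)) (ee a).2
    have h5 : (θ v) (Coprod.inr (FreeGroup.of (ee.symm ((ee a).1, (ee a).2)))) =
        (θ 0) (Coprod.inr (FreeGroup.of (ee.symm ((ee a).1, (ee a).2)))) := h4
    have h6 : ee.symm ((ee a).1, (ee a).2) = a := ee.symm_apply_apply a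
    rw [h6] at h5
    simp only [θ, Coprod.lift_apply_inr, FreeGroup.lift_apply_of] at h5
    exact congrArg (fun z => Multiplicative.toAdd z.down) h5
  obtain ⟨H, _, hH, φ, hφ, h, hh⟩ := hN k y hydet
  refine ⟨Wr H S, inferInstance, Wr.ds d e hd hH, (Wr.map S φ).comp (kk N), kk_inj N φ hφ,
    fun j => Wr.map S (ev φ h) (T j), fun i => ?_⟩
  have h1 := hfun (ev φ h) hh i
  have h2 : (Wr.map S (ev φ h)).comp Φ = (Wr.map S φ).comp (kk N) := by
    refine MonoidHom.ext fun g => Wr.ext (funext fun s => ?_) rfl
    show (ev φ h) (Coprod.inl _) = φ _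
    rw [Coprod.lift_apply_inl]
  rw [h2] at h1
  exact h1

end transfer

end Run7.h476
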