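import Pool.Agent.Run7.h476.Core
import Pool.Agent.Run7.h476.Transfer

/-!
Reductions to finitely generated groups and to square systems.
-/

set_option autoImplicit false
set_option linter.unusedSectionVars false

namespace Run7.h476

open Monoid
open scoped commutatorElement

universe u v w z

/-- the system `x` over `G` has a solution in an overgroup of derived length at most `e` -/
def Sol (e : ℕ) {G : Type u} [Group G] {m n : ℕ} (x : Fin m → Wd G n) : Prop :=
  ∃ (H : Type u) (_ : Group H), derivedSeries H e = ⊥ ∧ ∃ φ : G →* H, Function.Injective φ ∧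
    ∃ h : Fin n → H, ∀ i, ev φ h (x i) = 1

/-! ### Change of coefficients -/

/-- change of coefficients -/
def incl {G : Type u} [Group G] {G' : Type v} [Group G'] (n : ℕ) (f : G →* G') :
    Wd G n →* Wd G' n :=
  ev (Coprod.inl.comp f) (fun j => Coprod.inr (FreeGroup.of j))

theorem ev_incl {G : Type u} [Group G] {G' : Type v} [Group G'] {H : Type w} [Group H] {n : ℕ}
    (f : G →* G') (φ : G' →* H) (t : Fin n → H) (x : Wd G n) :
    ev φ t (incl n f x) = ev (φ.comp f) t x := by
  have h := ev_comp (ev φ t) (Coprod.inl.comp f) (fun j : Fin n => Coprod.inr (FreeGroup.of j)) x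
  have h1 : (ev φ t).comp (Coprod.inl.comp f) = φ.comp f := by
    ext g; simp
  have h2 : (fun j : Fin n => (ev φ t) (Coprod.inr (FreeGroup.of j))) = t := by
    funext j; simp
  rw [h1, h2] at h
  exact h

theorem incl_incl {G : Type u} [Group G] {G' : Type v} [Group G'] {G'' : Type w} [Group G'']
    {n : ℕ} (f : G →* G') (g : G' →* G'') (x : Wd G n) :
    incl n g (incl n f x) = incl n (g.comp f) x := by
  unfold incl
  rw [show ev (Coprod.inl.comp f) (fun j : Fin n => Coprod.inr (FreeGroup.of j)) x = incl n f x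
    from rfl, ev_incl]
  rfl

theorem expSum_incl {G : Type u} [Group G] {G' : Type v} [Group G'] {n : ℕ}
    (f : G →* G') (j : Fin n) (x : Wd G n) : expSum j (incl n f x) = expSum j x := by
  unfold expSum
  have h := ev_incl f (1 : G' →* Multiplicative ℤ)
    (fun k : Fin n => if k = j then Multiplicative.ofAdd (1 : ℤ) else 1) x
  rw [MonoidHom.one_comp] at h
  exact congrArg Multiplicative.toAdd h

theorem exists_support {G : Type u} [Group G] {n : ℕ} (x : Wd G n) :
    ∃ s : Finset G, ∀ K : Subgroup G, (s : Set G) ⊆ K → ∃ y : Wd K n, incl n K.subtype y = x := by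
  classical
  induction x using Coprod.induction_on with
  | inl g =>
    refine ⟨{g}, fun K hK => ⟨Coprod.inl ⟨g, hK (by simp)⟩, ?_⟩⟩
    simp [incl]
  | inr z =>
    refine ⟨∅, fun K _ => ⟨Coprod.inr z, ?_⟩⟩
    have h : (incl n K.subtype).comp Coprod.inr = Coprod.inr := by
      apply FreeGroup.ext_hom
      intro j
      simp [incl]
    exact DFunLike.congr_fun h z
  | mul a b ha hb =>
    obtain ⟨s, hs⟩ := ha
    obtain ⟨t, ht⟩ := hb
    refine ⟨s ∪ t, fun K hK => ?_⟩
    rw [Finset.coe_union, Set.union_subset_iff] at hK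
    obtain ⟨y, hy⟩ := hs K hK.1
    obtain ⟨z, hz⟩ := ht K hK.2
    exact ⟨y * z, by rw [map_mul, hy, hz]⟩

theorem ds_pi {I : Type u} {H : I → Type v} [∀ i, Group (H i)] (e : ℕ)
    (h : ∀ i, derivedSeries (H i) e = ⊥) : derivedSeries (∀ i, H i) e = ⊥ := by
  rw [eq_bot_iff]
  intro F hF
  rw [Subgroup.mem_bot]
  funext i
  have h1 : Pi.evalMonoidHom H i F ∈ derivedSeries (H i) e :=
    map_derivedSeries_le_derivedSeries (Pi.evalMonoidHom H i) e ⟨F, hF, rfl⟩
  rw [h i, Subgroup.mem_bot] at h1
  exact h1

theorem ds_quot {H : Type u} [Group H] (N : Subgroup H) [N.Normal] (e : ℕ)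
    (h : derivedSeries H e ≤ N) : derivedSeries (H ⧸ N) e = ⊥ := by
  rw [eq_bot_iff]
  refine (derivedSeries_le_map_derivedSeries (QuotientGroup.mk'_surjective N) e).trans ?_
  rintro _ ⟨x, hx, rfl⟩
  exact (QuotientGroup.eq_one_iff _).2 (h hx)

/-- Reduction to finitely generated groups. -/
theorem localize {G : Type u} [Group G] (e : ℕ) {m n : ℕ} (x : Fin m → Wd G n)
    (h : ∀ (K : Subgroup G), K.FG → ∀ y : Fin m → Wd K n,
      (∀ i, incl n K.subtype (y i) = x i) → Sol e y) : Sol e x := by
  classical
  choose s hs using fun i => exists_support (x i)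
  let K0 : Subgroup G := Subgroup.closure (Finset.univ.biUnion s : Finset G)
  have hK0 : ∀ i, (s i : Set G) ⊆ K0 := by
    intro i g hg
    apply Subgroup.subset_closure
    simp only [Finset.coe_biUnion, Set.mem_iUnion]
    exact ⟨i, by simp, hg⟩
  choose y0 hy0 using fun i => hs i K0 (hK0 i)
  let J : Type u := {K : Subgroup G // K.FG ∧ K0 ≤ K}
  have hK0fg : K0.FG := ⟨_, rfl⟩
  have hne : Nonempty J := ⟨⟨K0, hK0fg, le_rfl⟩⟩
  have hdir : IsDirected J (· ≤ ·) := ⟨fun K L => ⟨⟨K.1 ⊔ L.1, K.2.1.sup L.2.1,
    K.2.2.trans le_sup_left⟩, (le_sup_left : K.1 ≤ K.1 ⊔ L.1), (le_sup_right : L.1 ≤ K.1 ⊔ L.1)⟩⟩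
  have hyK : ∀ (K : J) i, incl n K.1.subtype (incl n (Subgroup.inclusion K.2.2) (y0 i)) = x i := by
    intro K i
    rw [incl_incl, ← hy0]
    rfl
  choose H iH hH φ hφ t ht using fun K : J => h K.1 K.2.1
    (fun i => incl n (Subgroup.inclusion K.2.2) (y0 i)) (hyK K)
  let P := ∀ K : J, H K
  let E : Subgroup P :=
    { carrier := {f | ∀ᶠ K in Filter.atTop, f K = 1}
      one_mem' := Filter.Eventually.of_forall fun K => rfl
      mul_mem' := by
        intro f g hf hg
        have hf' : ∀ᶠ K in Filter.atTop, f K = 1 := hf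
        have hg' : ∀ᶠ K in Filter.atTop, g K = 1 := hg
        show ∀ᶠ K in Filter.atTop, (f * g) K = 1
        filter_upwards [hf', hg'] with K h1 h2
        rw [Pi.mul_apply, h1, h2, one_mul]
      inv_mem' := by
        intro f hf
        have hf' : ∀ᶠ K in Filter.atTop, f K = 1 := hf
        show ∀ᶠ K in Filter.atTop, (f⁻¹) K = 1
        filter_upwards [hf'] with K h1
        rw [Pi.inv_apply, h1, inv_one] }
  have hE : ∀ f : P, f ∈ E ↔ ∀ᶠ K in Filter.atTop, f K = 1 := fun f => Iff.rfl
  have hEn : E.Normal := ⟨by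
    intro f hf g
    rw [hE] at hf ⊢
    filter_upwards [hf] with K h1
    rw [Pi.mul_apply, Pi.mul_apply, h1, Pi.inv_apply, mul_one, mul_inv_cancel]⟩
  let mk := QuotientGroup.mk' E
  have hmem : ∀ g : G, ∀ᶠ K : J in Filter.atTop, g ∈ K.1 := by
    intro g
    have hfg : (Subgroup.closure {g} : Subgroup G).FG := ⟨{g}, by simp⟩
    refine Filter.eventually_atTop.2 ⟨⟨K0 ⊔ Subgroup.closure {g}, hK0fg.sup hfg, le_sup_left⟩, ?_⟩
    intro K hK
    exact hK (Subgroup.mem_sup_right (Subgroup.subset_closure rfl))
  let F : G → P := fun g K => if hg : g ∈ K.1 then φ K ⟨g, hg⟩ else 1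
  have hF : ∀ (g : G) (K : J) (hg : g ∈ K.1), F g K = φ K ⟨g, hg⟩ := by
    intro g K hg
    simp only [F, dif_pos hg]
  let Φ : G →* P ⧸ E :=
    { toFun := fun g => mk (F g)
      map_one' := by
        rw [show F 1 = 1 from ?_, map_one]
        funext K
        rw [hF 1 K (Subgroup.one_mem _)]
        exact map_one (φ K)
      map_mul' := by
        intro g g'
        rw [← map_mul, ← inv_mul_eq_one, ← map_inv, ← map_mul]
        apply (QuotientGroup.eq_one_iff _).2
        rw [hE]
        filter_upwards [hmem g, hmem g'] with K h1 h2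
        rw [Pi.mul_apply, Pi.inv_apply, Pi.mul_apply, hF _ K h1, hF _ K h2,
          hF _ K (Subgroup.mul_mem _ h1 h2), ← map_mul, inv_mul_eq_one]
        rfl }
  have hΦ : Function.Injective Φ := by
    rw [injective_iff_map_eq_one]
    intro g hg
    have h1 : F g ∈ E := (QuotientGroup.eq_one_iff _).1 hg
    rw [hE] at h1
    obtain ⟨K, hK1, hK2⟩ := (h1.and (hmem g)).exists
    rw [hF g K hK2] at hK1
    exact congrArg Subtype.val (hφ K (hK1.trans (map_one (φ K)).symm))
  refine ⟨P ⧸ E, inferInstance, ?_, Φ, hΦ, fun j => mk (fun K => t K j), fun i => ?_⟩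
  · apply ds_quot
    have h1 : derivedSeries P e = ⊥ := ds_pi e hH
    rw [h1]
    exact bot_le
  · rw [← hy0, ev_incl]
    let Ψ : K0 →* P :=
      { toFun := fun g K => φ K (Subgroup.inclusion K.2.2 g)
        map_one' := by
          funext K
          show φ K (Subgroup.inclusion K.2.2 1) = 1
          rw [map_one, map_one]
        map_mul' := by
          intro a b
          funext K
          show φ K (Subgroup.inclusion K.2.2 (a * b)) =
            φ K (Subgroup.inclusion K.2.2 a) * φ K (Subgroup.inclusion K.2.2 b)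
          rw [map_mul, map_mul] }
    have h1 : Φ.comp K0.subtype = mk.comp Ψ := by
      refine MonoidHom.ext fun g => ?_
      show mk (F g) = mk (Ψ g)
      congr 1
      funext K
      rw [hF _ K (K.2.2 g.2)]
      rfl
    rw [h1, ← ev_comp mk Ψ (fun j K => t K j)]
    have h2 : ev Ψ (fun j K => t K j) (y0 i) = 1 := by
      funext K
      have h3 := ev_comp (Pi.evalMonoidHom H K) Ψ (fun j K => t K j) (y0 i)
      have h4 := ht K i
      rw [ev_incl] at h4
      exact h3.trans h4
    rw [h2, map_one]

/-! ### Square systems -/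

theorem exists_minor {K : Type v} [Field K] {m n : ℕ} (E : Matrix (Fin m) (Fin n) K)
    (h : E.rank = m) : ∃ c : Fin m → Fin n, Function.Injective c ∧ (E.submatrix id c).det ≠ 0 := by
  obtain ⟨κ, a, ha, hsp, hli⟩ := exists_linearIndependent' K E.col
  have hfin : Finite κ := Finite.of_injective a ha
  have := Fintype.ofFinite κ
  have h1 : Fintype.card κ = m := by
    rw [← h, Matrix.rank_eq_finrank_span_cols, ← hsp, finrank_span_eq_card hli]
  let e : Fin m ≃ κ := (Fintype.equivFinOfCardEq h1).symm
  refine ⟨a ∘ e, ha.comp e.injective, ?_⟩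
  have h2 : LinearIndependent K (E.submatrix id (a ∘ e)).col := by
    have := hli.comp e e.injective
    exact this
  rw [Matrix.linearIndependent_cols_iff_isUnit, Matrix.isUnit_iff_isUnit_det] at h2
  exact h2.ne_zero

/-- Reduction to square systems. -/
theorem square {G : Type u} [Group G] (e : ℕ) {m n : ℕ} (x : Fin m → Wd G n)
    (c : Fin m → Fin n) (hc : Function.Injective c)
    (h : ∀ y : Fin m → Wd G m, (∀ i j, expSum j (y i) = expSum (c j) (x i)) → Sol e y) :
    Sol e x := by
  classical
  let r : Wd G n →* Wd G m := ev Coprod.inl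
    (fun j => if hj : ∃ k, c k = j then Coprod.inr (FreeGroup.of hj.choose) else 1)
  have hr : ∀ i j, expSum j (r (x i)) = expSum (c j) (x i) := by
    intro i j
    unfold expSum
    congr 1
    have h1 := ev_comp (ev (1 : G →* Multiplicative ℤ)
      (fun k : Fin m => if k = j then Multiplicative.ofAdd (1 : ℤ) else 1)) Coprod.inl
      (fun j : Fin n => if hj : ∃ k, c k = j then
        (Coprod.inr (FreeGroup.of hj.choose) : Wd G m) else 1) (x i)
    refine h1.trans ?_
    congr 2
    funext l
    by_cases hl : ∃ k, c k = l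
    · rw [dif_pos hl]
      simp only [Coprod.lift_apply_inr, FreeGroup.lift_apply_of]
      have h2 := hl.choose_spec
      by_cases h3 : hl.choose = j
      · rw [if_pos h3, if_pos]
        rw [← h3, h2]
      · rw [if_neg h3, if_neg]
        intro h4
        exact h3 (hc (h2.trans h4))
    · rw [dif_neg hl, map_one, if_neg]
      intro h4
      exact hl ⟨j, h4.symm⟩
  obtain ⟨H, _, hH, φ, hφ, t, ht⟩ := h (fun i => r (x i)) hr
  refine ⟨H, inferInstance, hH, φ, hφ, fun j => ev φ t
    (if hj : ∃ k, c k = j then Coprod.inr (FreeGroup.of hj.choose) else 1), fun i => ?_⟩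
  have h1 := ev_comp (ev φ t) Coprod.inl
      (fun j : Fin n => if hj : ∃ k, c k = j then
        (Coprod.inr (FreeGroup.of hj.choose) : Wd G m) else 1) (x i)
  have h2 : (ev φ t).comp Coprod.inl = φ := by ext g; simp
  rw [h2] at h1
  rw [← h1]
  exact ht i

/-! ### Finitely generated soluble torsion groups -/

theorem finite_of_comm {G : Type u} [Group G] (hc : ∀ a b : G, a * b = b * a) [Group.FG G]
    (ht : ∀ g : G, IsOfFinOrder g) : Finite G := by
  let _ : CommGroup G := { (inferInstance : Group G) with mul_comm := hc }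
  exact CommGroup.finite_of_fg_isMulTorsion G ht

theorem finite_of_fg {G : Type u} [Group G] [hfg : Group.FG G] (d : ℕ)
    (hd : derivedSeries G d = ⊥) (ht : ∀ g : G, IsOfFinOrder g) : Finite G := by
  induction d generalizing G with
  | zero =>
    rw [derivedSeries_zero] at hd
    have : Subsingleton G := (Subgroup.subsingleton_iff (G := G)).1 (subsingleton_of_bot_eq_top hd.symm)
    infer_instance
  | succ d ih =>
    let M := derivedSeries G d
    have hM : M.Normal := derivedSeries_normal G d
    have h1 : Finite (G ⧸ M) := by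
      apply ih (ds_quot M d le_rfl)
      intro g
      obtain ⟨g', rfl⟩ := QuotientGroup.mk'_surjective M g
      exact (QuotientGroup.mk' M).isOfFinOrder (ht g')
    have h2 : M.FiniteIndex := Subgroup.finiteIndex_of_finite_quotient
    have h3 : Group.FG M := Subgroup.fg_of_index_ne_zero M
    have h4 : Finite M := by
      apply finite_of_comm
      · intro a b
        apply Subtype.ext
        have : ⁅(a : G), (b : G)⁆ ∈ derivedSeries G (d + 1) := by
          rw [derivedSeries_succ]
          exact Subgroup.commutator_mem_commutator a.2 b.2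
        rw [hd, Subgroup.mem_bot, commutatorElement_eq_one_iff_mul_comm] at this
        exact this
      · intro g
        exact Submonoid.isOfFinOrder_coe.1 (ht g)
    exact Finite.of_subgroup_quotient M

end Run7.h476
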