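import Pool.Agent.Run7.h476.Local

/-!
Independent systems over extensions of abelian groups by abelian `p`-groups by `q`-groups.
-/

set_option autoImplicit false
set_option linter.unusedSectionVars false

namespace Run7.h476

open Monoid
open scoped commutatorElement

universe u v w z

theorem normal_of_comm {G : Type u} [Group G] (A : Subgroup G)
    (h : ∀ g h : G, g * h * g⁻¹ * h⁻¹ ∈ A) : A.Normal := ⟨by
  intro a ha g
  have := A.mul_mem (h g a) ha
  simpa [mul_assoc] using this⟩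

theorem isPGroup_quot {G : Type u} [Group G] (A : Subgroup G) [A.Normal] (p : ℕ)
    (h : ∀ g : G, ∃ k : ℕ, g ^ p ^ k ∈ A) : IsPGroup p (G ⧸ A) := by
  intro g
  obtain ⟨g', rfl⟩ := QuotientGroup.mk'_surjective A g
  obtain ⟨k, hk⟩ := h g'
  refine ⟨k, ?_⟩
  rw [← map_pow]
  exact (QuotientGroup.eq_one_iff _).2 hk

theorem torsion_of_isPGroup {G : Type u} [Group G] {p : ℕ} [Fact p.Prime] (h : IsPGroup p G)
    (g : G) : IsOfFinOrder g := by
  obtain ⟨k, hk⟩ := h g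
  exact isOfFinOrder_iff_pow_eq_one.2 ⟨p ^ k, pow_pos (Fact.out : p.Prime).pos k, hk⟩

/-- A finitely generated group `G` with subgroups `A ≤ N`. -/
theorem main_fg {G : Type u} [Group G] [Group.FG G] (A N : Subgroup G) [N.Normal]
    (hA : ∀ a ∈ A, ∀ b ∈ A, a * b = b * a) (hNA : ∀ x ∈ N, ∀ y ∈ N, x * y * x⁻¹ * y⁻¹ ∈ A)
    (p : ℕ) [Fact p.Prime] (hp : ∀ x ∈ N, ∃ k : ℕ, x ^ p ^ k ∈ A)
    (d : ℕ) (hd : derivedSeries G d ≤ N)
    (q : ℕ) [Fact q.Prime] (hq : ∀ g : G, ∃ k : ℕ, g ^ q ^ k ∈ N)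
    {n : ℕ} (x : Fin n → Wd G n)
    (hdet : ¬ (q : ℤ) ∣ (Matrix.of fun i j : Fin n => expSum j (x i)).det) :
    Sol (d + 2) x := by
  have hSp : IsPGroup q (G ⧸ N) := isPGroup_quot N q hq
  have hSd : derivedSeries (G ⧸ N) d = ⊥ := ds_quot N d hd
  have hSfin : Finite (G ⧸ N) := finite_of_fg d hSd (torsion_of_isPGroup hSp)
  have hNi : N.FiniteIndex := Subgroup.finiteIndex_of_finite_quotient
  have hNfg : Group.FG N := Subgroup.fg_of_index_ne_zero N
  let A' : Subgroup N := A.subgroupOf N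
  have hA'1 : ∀ a ∈ A', ∀ b ∈ A', a * b = b * a := by
    intro a ha b hb
    exact Subtype.ext (hA a (Subgroup.mem_subgroupOf.1 ha) b (Subgroup.mem_subgroupOf.1 hb))
  have hA'2 : ∀ g h : N, g * h * g⁻¹ * h⁻¹ ∈ A' := by
    intro g h
    exact Subgroup.mem_subgroupOf.2 (hNA g g.2 h h.2)
  have hA'n : A'.Normal := normal_of_comm A' hA'2
  have hA'p : IsPGroup p (N ⧸ A') := by
    apply isPGroup_quot
    intro g
    obtain ⟨k, hk⟩ := hp g g.2
    exact ⟨k, Subgroup.mem_subgroupOf.2 hk⟩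
  have hA'f : Finite (N ⧸ A') := by
    apply finite_of_comm
    · intro a b
      obtain ⟨g, rfl⟩ := QuotientGroup.mk'_surjective A' a
      obtain ⟨h, rfl⟩ := QuotientGroup.mk'_surjective A' b
      rw [← map_mul, ← map_mul, ← mul_inv_eq_one, ← map_inv, ← map_mul]
      apply (QuotientGroup.eq_one_iff _).2
      have := hA'2 g h
      rw [mul_inv_rev]
      simpa [mul_assoc] using this
    · exact torsion_of_isPGroup hA'p
  exact transfer N hSp d 2 hSd (fun k y hy => core A' hA'1 hA'2 hA'p y hy) x hdet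

theorem main {G : Type u} [Group G] (A N : Subgroup G) [N.Normal]
    (hA : ∀ a ∈ A, ∀ b ∈ A, a * b = b * a) (hNA : ∀ x ∈ N, ∀ y ∈ N, x * y * x⁻¹ * y⁻¹ ∈ A)
    (p : ℕ) [Fact p.Prime] (hp : ∀ x ∈ N, ∃ k : ℕ, x ^ p ^ k ∈ A)
    (d : ℕ) (hd : derivedSeries G d ≤ N)
    (q : ℕ) [Fact q.Prime] (hq : ∀ g : G, ∃ k : ℕ, g ^ q ^ k ∈ N)
    {m n : ℕ} (x : Fin m → Wd G n) (c : Fin m → Fin n) (hc : Function.Injective c)
    (hdet : ¬ (q : ℤ) ∣ (Matrix.of fun i j : Fin m => expSum (c j) (x i)).det) :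
    Sol (d + 2) x := by
  refine square (d + 2) x c hc fun y hy => localize (d + 2) y fun K hK z hz => ?_
  have hKfg : Group.FG K := (Group.fg_iff_subgroup_fg K).2 hK
  have hdK : derivedSeries K d ≤ N.subgroupOf K := by
    intro g hg
    exact Subgroup.mem_subgroupOf.2
      (hd (map_derivedSeries_le_derivedSeries K.subtype d ⟨g, hg, rfl⟩))
  refine main_fg (A.subgroupOf K) (N.subgroupOf K) ?_ ?_ p ?_ d hdK q ?_ z ?_
  · intro a ha b hb
    exact Subtype.ext (hA a (Subgroup.mem_subgroupOf.1 ha) b (Subgroup.mem_subgroupOf.1 hb))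
  · intro a ha b hb
    exact Subgroup.mem_subgroupOf.2 (hNA a (Subgroup.mem_subgroupOf.1 ha) b
      (Subgroup.mem_subgroupOf.1 hb))
  · intro a ha
    obtain ⟨k, hk⟩ := hp a (Subgroup.mem_subgroupOf.1 ha)
    exact ⟨k, Subgroup.mem_subgroupOf.2 hk⟩
  · intro g
    obtain ⟨k, hk⟩ := hq g
    exact ⟨k, Subgroup.mem_subgroupOf.2 hk⟩
  · have h1 : (Matrix.of fun i j : Fin m => expSum j (z i)) =
        Matrix.of fun i j : Fin m => expSum (c j) (x i) := by
      ext i j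
      rw [Matrix.of_apply, Matrix.of_apply, ← hy, ← hz, expSum_incl]
    rw [h1]
    exact hdet

/-- the exponent matrix -/
def expMat {G : Type u} [Group G] {m n : ℕ} (x : Fin m → Wd G n) : Matrix (Fin m) (Fin n) ℤ :=
  Matrix.of fun i j => expSum j (x i)

theorem main_rank {G : Type u} [Group G] (A N : Subgroup G) [N.Normal]
    (hA : ∀ a ∈ A, ∀ b ∈ A, a * b = b * a) (hNA : ∀ x ∈ N, ∀ y ∈ N, x * y * x⁻¹ * y⁻¹ ∈ A)
    (p : ℕ) (hpp : p.Prime) (hp : ∀ x ∈ N, ∃ k : ℕ, x ^ p ^ k ∈ A)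
    (d : ℕ) (hd : derivedSeries G d ≤ N)
    {m n : ℕ} (x : Fin m → Wd G n) (hr : ((expMat x).map (Int.cast : ℤ → ℚ)).rank = m)
    (hq : N = ⊤ ∨ ∃ q : ℕ, q.Prime ∧ (∀ g : G, ∃ k : ℕ, g ^ q ^ k ∈ N) ∧
      ((expMat x).map (Int.cast : ℤ → ZMod q)).rank = m) :
    Sol (d + 2) x := by
  have : Fact p.Prime := ⟨hpp⟩
  rcases hq with hN | ⟨q, hq, hqN, hqr⟩
  · obtain ⟨c, hc, hdet⟩ := exists_minor _ hr
    have h1 : (Matrix.of fun i j : Fin m => expSum (c j) (x i)).det ≠ 0 := by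
      intro h0
      apply hdet
      have h2 : ((expMat x).map (Int.cast : ℤ → ℚ)).submatrix id c =
          (Int.castRingHom ℚ).mapMatrix (Matrix.of fun i j : Fin m => expSum (c j) (x i)) := by
        ext i j
        rfl
      rw [h2, ← RingHom.map_det, h0, map_zero]
    obtain ⟨q, hqlt, hq⟩ := Nat.exists_infinite_primes
      ((Matrix.of fun i j : Fin m => expSum (c j) (x i)).det.natAbs + 1)
    have : Fact q.Prime := ⟨hq⟩
    refine main A N hA hNA p hp d hd q (fun g => ⟨0, by rw [hN]; exact Subgroup.mem_top _⟩)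
      x c hc ?_
    intro hdvd
    have h2 := Nat.le_of_dvd (Int.natAbs_pos.2 h1) (Int.natCast_dvd.1 hdvd)
    omega
  · have : Fact q.Prime := ⟨hq⟩
    obtain ⟨c, hc, hdet⟩ := exists_minor _ hqr
    refine main A N hA hNA p hp d hd q hqN x c hc ?_
    intro hdvd
    apply hdet
    have h2 : ((expMat x).map (Int.cast : ℤ → ZMod q)).submatrix id c =
        (Int.castRingHom (ZMod q)).mapMatrix
          (Matrix.of fun i j : Fin m => expSum (c j) (x i)) := by
      ext i j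
      rfl
    rw [h2, ← RingHom.map_det]
    exact (ZMod.intCast_zmod_eq_zero_iff_dvd _ _).2 hdvd

end Run7.h476
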