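import Pool.Agent.Run7.h476.Main

/-!
Finitely generated nilpotent groups and `p`-groups; metabelian groups which are locally residually
nilpotent.
-/

set_option autoImplicit false
set_option linter.unusedSectionVars false

namespace Run7.h476

open Monoid
open scoped commutatorElement

universe u v w z

theorem comm_pow {G : Type u} [Group G] (x s c : G) (hc : c ∈ Subgroup.center G)
    (h : x * s = c * (s * x)) (m : ℕ) : x ^ m * s = c ^ m * (s * x ^ m) := by
  induction m with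
  | zero => simp
  | succ m ih =>
    have h1 := (Subgroup.mem_center_iff.1 (Subgroup.pow_mem _ hc m) x)
    calc x ^ (m + 1) * s = x * (x ^ m * s) := by rw [pow_succ', mul_assoc]
      _ = (x * c ^ m) * (s * x ^ m) := by rw [ih]; group
      _ = c ^ m * (x * s) * x ^ m := by rw [h1]; group
      _ = c ^ (m + 1) * (s * x ^ (m + 1)) := by rw [h, pow_succ, pow_succ']; group

theorem center_lift {G : Type u} [Group G] [hfg : Group.FG G] {p : ℕ}
    (hZ : ∀ z ∈ Subgroup.center G, ∃ k : ℕ, z ^ p ^ k = 1)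
    (y : G ⧸ Subgroup.center G) (hy : y ∈ Subgroup.center (G ⧸ Subgroup.center G)) :
    ∃ k : ℕ, y ^ p ^ k = 1 := by
  obtain ⟨x, rfl⟩ := QuotientGroup.mk'_surjective _ y
  obtain ⟨S, hS⟩ := (Group.fg_def.1 hfg)
  have h1 : ∀ s : G, x * s * x⁻¹ * s⁻¹ ∈ Subgroup.center G := by
    intro s
    apply (QuotientGroup.eq_one_iff _).1
    show QuotientGroup.mk' (Subgroup.center G) (x * s * x⁻¹ * s⁻¹) = 1
    have h2 := Subgroup.mem_center_iff.1 hy (QuotientGroup.mk' (Subgroup.center G) s)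
    rw [map_mul, map_mul, map_mul, map_inv, map_inv, ← h2]
    group
  choose f hf using fun s : G => hZ _ (h1 s)
  let K := S.sup f
  have h2 : ∀ s ∈ S, (x * s * x⁻¹ * s⁻¹) ^ p ^ K = 1 := by
    intro s hs
    have h3 : f s ≤ K := Finset.le_sup hs
    obtain ⟨j, hj⟩ := Nat.exists_eq_add_of_le h3
    rw [hj, pow_add, pow_mul, hf, one_pow]
  refine ⟨K, ?_⟩
  rw [← map_pow]
  apply (QuotientGroup.eq_one_iff _).2
  have h3 : (⊤ : Subgroup G) ≤ Subgroup.centralizer {x ^ p ^ K} := by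
    rw [← hS, Subgroup.closure_le]
    intro s hs
    rw [SetLike.mem_coe, Subgroup.mem_centralizer_iff]
    rintro _ rfl
    have h4 := comm_pow x s (x * s * x⁻¹ * s⁻¹) (h1 s) (by group) (p ^ K)
    rw [h2 s hs, one_mul] at h4
    exact h4
  rw [Subgroup.mem_center_iff]
  intro g
  have := Subgroup.mem_centralizer_iff.1 (h3 (Subgroup.mem_top g)) _ rfl
  exact this.symm

theorem pgroup_of_center (G : Type u) [Group G] [Group.IsNilpotent G] (p : ℕ) :
    Group.FG G → (∀ z ∈ Subgroup.center G, ∃ k : ℕ, z ^ p ^ k = 1) → IsPGroup p G := by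
  apply Group.nilpotent_center_quotient_ind
    (P := fun G _ _ => Group.FG G → (∀ z ∈ Subgroup.center G, ∃ k : ℕ, z ^ p ^ k = 1) →
      IsPGroup p G) G
  · intro G _ _ _ _ g
    exact ⟨0, Subsingleton.elim _ _⟩
  · intro G _ _ ih hfg hZ g
    have h1 : IsPGroup p (G ⧸ Subgroup.center G) := ih inferInstance (center_lift hZ)
    obtain ⟨k, hk⟩ := h1 (QuotientGroup.mk' _ g)
    rw [← map_pow] at hk
    obtain ⟨l, hl⟩ := hZ _ ((QuotientGroup.eq_one_iff _).1 hk)
    exact ⟨k + l, by rw [pow_add, pow_mul, hl]⟩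

theorem exists_pquotient (G : Type u) [Group G] [Group.IsNilpotent G] [hfg : Group.FG G] (g : G)
    (hg : g ≠ 1) : ∃ (N : Subgroup G) (_ : N.Normal) (p : ℕ), g ∉ N ∧ p.Prime ∧
      IsPGroup p (G ⧸ N) := by
  let s : Set (Subgroup G) := {N | N.Normal ∧ g ∉ N}
  obtain ⟨N, -, hN⟩ := zorn_le_nonempty₀ s (by
    intro c hc hchain y hy
    have hne : c.Nonempty := ⟨y, hy⟩
    have hmem : ∀ x, x ∈ sSup c ↔ ∃ M ∈ c, x ∈ M := fun x =>
      Subgroup.mem_sSup_of_directedOn hne hchain.directedOn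
    refine ⟨sSup c, ⟨⟨?_⟩, ?_⟩, fun z hz => le_sSup hz⟩
    · intro x hx h
      obtain ⟨M, hM, hxM⟩ := (hmem x).1 hx
      exact (hmem _).2 ⟨M, hM, (hc hM).1.conj_mem x hxM h⟩
    · intro hgc
      obtain ⟨M, hM, hxM⟩ := (hmem g).1 hgc
      exact (hc hM).2 hxM) ⊥ ⟨inferInstance, by simpa using hg⟩
  have hNn : N.Normal := hN.prop.1
  have hgN : g ∉ N := hN.prop.2
  let L := G ⧸ N
  let c : L := QuotientGroup.mk' N g
  have hc1 : c ≠ 1 := fun h => hgN ((QuotientGroup.eq_one_iff _).1 h)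
  have key : ∀ M : Subgroup L, M.Normal → M ≠ ⊥ → c ∈ M := by
    intro M hM hM0
    by_contra hcM
    apply hM0
    have h1 : M.comap (QuotientGroup.mk' N) ∈ s := ⟨hM.comap _, hcM⟩
    have h2 : N ≤ M.comap (QuotientGroup.mk' N) := by
      intro x hx
      have : QuotientGroup.mk' N x = 1 := (QuotientGroup.eq_one_iff _).2 hx
      rw [Subgroup.mem_comap, this]
      exact Subgroup.one_mem _
    have h3 := hN.le_of_ge h1 h2
    rw [eq_bot_iff]
    intro y hy
    obtain ⟨x, rfl⟩ := QuotientGroup.mk'_surjective N y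
    exact Subgroup.mem_bot.2 ((QuotientGroup.eq_one_iff _).2 (h3 hy))
  have hnt : Nontrivial L := ⟨⟨c, 1, hc1⟩⟩
  have hLnil : Group.IsNilpotent L := inferInstance
  have hcen : c ∈ Subgroup.center L := by
    apply key _ inferInstance
    exact Group.IsNilpotent.center_ne_bot L
  have hz : ∀ z ∈ Subgroup.center L, z ≠ 1 → ∃ k : ℤ, z ^ k = c := by
    intro z hz hz1
    have h1 : (Subgroup.zpowers z).Normal := ⟨by
      intro y hy h
      have h2 : y ∈ Subgroup.center L := (Subgroup.zpowers_le.2 hz) hy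
      rw [Subgroup.mem_center_iff.1 h2 h, mul_inv_cancel_right]
      exact hy⟩
    exact Subgroup.mem_zpowers_iff.1 (key _ h1 (by rwa [Ne, Subgroup.zpowers_eq_bot]))
  -- the order of `c`
  have hfin : IsOfFinOrder c := by
    by_cases h2 : c ^ 2 = 1
    · exact isOfFinOrder_iff_pow_eq_one.2 ⟨2, by norm_num, h2⟩
    · obtain ⟨k, hk⟩ := hz _ (Subgroup.pow_mem _ hcen 2) h2
      rw [isOfFinOrder_iff_zpow_eq_one]
      refine ⟨2 * k - 1, by omega, ?_⟩
      rw [zpow_sub, zpow_one, zpow_mul, show c ^ (2 : ℤ) = c ^ 2 from zpow_natCast c 2, hk,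
        mul_inv_cancel]
  have hord : orderOf c ≠ 1 := fun h => hc1 (orderOf_eq_one_iff.1 h)
  let p := (orderOf c).minFac
  have hp : p.Prime := Nat.minFac_prime hord
  have hcp : c ^ p = 1 := by
    by_contra h2
    obtain ⟨k, hk⟩ := hz _ (Subgroup.pow_mem _ hcen p) h2
    have h3 : c ^ ((p : ℤ) * k - 1) = 1 := by
      rw [zpow_sub, zpow_one, zpow_mul, zpow_natCast, hk, mul_inv_cancel]
    have h4 : (orderOf c : ℤ) ∣ (p : ℤ) * k - 1 := orderOf_dvd_iff_zpow_eq_one.2 h3
    have h5 : (p : ℤ) ∣ (p : ℤ) * k - 1 := (Int.natCast_dvd_natCast.2 (Nat.minFac_dvd _)).trans h4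
    have h6 : (p : ℤ) ∣ 1 := by
      have := dvd_sub (dvd_mul_right (p : ℤ) k) h5
      simpa using this
    exact hp.one_lt.ne' (Nat.dvd_one.1 (by exact_mod_cast h6))
  refine ⟨N, hNn, p, hgN, hp, ?_⟩
  apply pgroup_of_center L p inferInstance
  intro z hzc
  by_cases hz1 : z = 1
  · exact ⟨0, by rw [hz1, one_pow]⟩
  obtain ⟨k, hk⟩ := hz z hzc hz1
  have hk0 : k ≠ 0 := by
    rintro rfl
    exact hc1 (hk.symm.trans (zpow_zero z))
  have hzfin : IsOfFinOrder z := by
    rw [isOfFinOrder_iff_zpow_eq_one]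
    refine ⟨k * p, mul_ne_zero hk0 (by exact_mod_cast hp.ne_zero), ?_⟩
    rw [zpow_mul, hk, zpow_natCast, hcp]
  obtain ⟨a, m, hm, ho⟩ := Nat.exists_eq_pow_mul_and_not_dvd (orderOf_pos_iff.2 hzfin).ne' p
    hp.one_lt.ne'
  refine ⟨a, ?_⟩
  by_contra h2
  obtain ⟨l, hl⟩ := hz _ (Subgroup.pow_mem _ hzc (p ^ a)) h2
  have h3 : c ^ m = 1 := by
    rw [← hl, ← zpow_natCast, ← zpow_mul, mul_comm, zpow_mul, zpow_natCast, ← pow_mul, ← ho,
      pow_orderOf_eq_one, one_zpow]
  have h4 : Nat.Coprime p m := (Nat.Prime.coprime_iff_not_dvd hp).2 hm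
  apply hc1
  have h5 := Nat.Coprime.eq_one_of_dvd (h4.coprime_dvd_left (orderOf_dvd_of_pow_eq_one hcp))
    (orderOf_dvd_of_pow_eq_one h3)
  exact orderOf_eq_one_iff.1 h5

/-- Solutions in enough quotients. -/
theorem residual {G : Type u} [Group G] (e : ℕ) {m n : ℕ} (x : Fin m → Wd G n)
    (h : ∀ g : G, g ≠ 1 → ∃ (L : Type u) (_ : Group L) (f : G →* L), f g ≠ 1 ∧
      Sol e (fun i => incl n f (x i))) : Sol e x := by
  choose L iL f hf H iH hH φ hφ t ht using fun g : {g : G // g ≠ 1} => h g.1 g.2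
  let Φ : G →* (∀ g, H g) :=
    { toFun := fun a g => φ g (f g a)
      map_one' := by funext g; simp
      map_mul' := by intro a b; funext g; simp }
  refine ⟨∀ g, H g, inferInstance, ds_pi e hH, Φ, ?_, fun j g => t g j, fun i => ?_⟩
  · rw [injective_iff_map_eq_one]
    intro a ha
    by_contra ha1
    have h1 : φ ⟨a, ha1⟩ (f ⟨a, ha1⟩ a) = 1 := congrFun ha ⟨a, ha1⟩
    exact hf ⟨a, ha1⟩ (hφ _ (h1.trans (map_one _).symm))
  · funext g
    have h1 := ev_comp (Pi.evalMonoidHom H g) Φ (fun j g => t g j) (x i)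
    have h2 := ht g i
    rw [ev_incl] at h2
    exact h1.trans h2

/-- Nonsingular systems over groups with an abelian normal subgroup whose quotient is an abelian
`p`-group. -/
theorem main_top {G : Type u} [Group G] (A : Subgroup G)
    (hA : ∀ a ∈ A, ∀ b ∈ A, a * b = b * a) (hGA : ∀ x y : G, x * y * x⁻¹ * y⁻¹ ∈ A)
    (p : ℕ) (hpp : p.Prime) (hp : ∀ x : G, ∃ k : ℕ, x ^ p ^ k ∈ A)
    {n : ℕ} (x : Fin n → Wd G n)
    (hdet : (Matrix.of fun i j : Fin n => expSum j (x i)).det ≠ 0) : Sol 2 x := by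
  have : Fact p.Prime := ⟨hpp⟩
  obtain ⟨q, hqlt, hq⟩ := Nat.exists_infinite_primes
      ((Matrix.of fun i j : Fin n => expSum j (x i)).det.natAbs + 1)
  have : Fact q.Prime := ⟨hq⟩
  refine main A ⊤ hA (fun a _ b _ => hGA a b) p (fun x _ => hp x) 0 le_top q
    (fun g => ⟨0, Subgroup.mem_top _⟩) x id Function.injective_id ?_
  intro hdvd
  have h2 := Nat.le_of_dvd (Int.natAbs_pos.2 hdet) (Int.natCast_dvd.1 hdvd)
  omega

theorem fg_quot {G : Type u} [Group G] [Group.FG G] (N : Subgroup G) [N.Normal] :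
    Group.FG (G ⧸ N) := QuotientGroup.fg N

/-- Finitely generated metabelian residually nilpotent groups. -/
theorem main_rn {G : Type u} [Group G] [Group.FG G] (hG : derivedSeries G 2 = ⊥)
    (hres : ∀ g : G, (∀ i, g ∈ (⊤ : Subgroup G).lowerCentralSeries i) → g = 1)
    {n : ℕ} (x : Fin n → Wd G n)
    (hdet : (Matrix.of fun i j : Fin n => expSum j (x i)).det ≠ 0) : Sol 2 x := by
  apply residual
  intro g hg
  obtain ⟨i, hi⟩ : ∃ i, g ∉ (⊤ : Subgroup G).lowerCentralSeries i := by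
    by_contra h
    push Not at h
    exact hg (hres g h)
  let N := (⊤ : Subgroup G).lowerCentralSeries i
  have hN : N.Normal := inferInstance
  have h1 : Group.IsNilpotent (G ⧸ N) := by
    rw [Subgroup.nilpotent_iff_lowerCentralSeries]
    refine ⟨i, ?_⟩
    have h2 := Subgroup.map_lowerCentralSeries (⊤ : Subgroup G) (QuotientGroup.mk' N) i
    rw [← MonoidHom.range_eq_map, QuotientGroup.range_mk'] at h2
    rw [← h2, eq_bot_iff]
    rintro _ ⟨y, hy, rfl⟩
    exact (QuotientGroup.eq_one_iff _).2 hy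
  have h2 : Group.FG (G ⧸ N) := fg_quot N
  have h3 : QuotientGroup.mk' N g ≠ 1 := fun h => hi ((QuotientGroup.eq_one_iff _).1 h)
  obtain ⟨M, hM, p, hgM, hp, hpM⟩ := exists_pquotient (G ⧸ N) (QuotientGroup.mk' N g) h3
  let L := (G ⧸ N) ⧸ M
  let f : G →* L := (QuotientGroup.mk' M).comp (QuotientGroup.mk' N)
  have hf : Function.Surjective f :=
    (QuotientGroup.mk'_surjective M).comp (QuotientGroup.mk'_surjective N)
  refine ⟨L, inferInstance, f, fun h => hgM ((QuotientGroup.eq_one_iff _).1 h), ?_⟩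
  have hL : derivedSeries L 2 = ⊥ := by
    rw [← map_derivedSeries_eq hf, hG, Subgroup.map_bot]
  refine main_top (derivedSeries L 1) ?_ ?_ p hp ?_ _ ?_
  · intro a ha b hb
    have : ⁅a, b⁆ ∈ derivedSeries L 2 := by
      rw [derivedSeries_succ]
      exact Subgroup.commutator_mem_commutator ha hb
    rw [hL, Subgroup.mem_bot, commutatorElement_eq_one_iff_mul_comm] at this
    exact this
  · intro a b
    rw [derivedSeries_one]
    exact Subgroup.commutator_mem_commutator (Subgroup.mem_top a) (Subgroup.mem_top b)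
  · intro a
    obtain ⟨k, hk⟩ := hpM a
    exact ⟨k, by rw [hk]; exact Subgroup.one_mem _⟩
  · have h4 : (Matrix.of fun i j : Fin n => expSum j (incl n f (x i))) =
        Matrix.of fun i j : Fin n => expSum j (x i) := by
      ext i j
      rw [Matrix.of_apply, Matrix.of_apply, expSum_incl]
    rw [h4]
    exact hdet

theorem rank_cases {G : Type u} [Group G] (N : Subgroup G) {m n : ℕ} (x : Fin m → Wd G n)
    (hr : ((expMat x).map (Int.cast : ℤ → ℚ)).rank = m)
    (hq : N = ⊤ ∨ ∃ q : ℕ, q.Prime ∧ (∀ g : G, ∃ k : ℕ, g ^ q ^ k ∈ N) ∧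
      ((expMat x).map (Int.cast : ℤ → ZMod q)).rank = m) :
    ∃ q : ℕ, q.Prime ∧ (∀ g : G, ∃ k : ℕ, g ^ q ^ k ∈ N) ∧
      ∃ c : Fin m → Fin n, Function.Injective c ∧
        ¬ (q : ℤ) ∣ (Matrix.of fun i j : Fin m => expSum (c j) (x i)).det := by
  rcases hq with hN | ⟨q, hq, hqN, hqr⟩
  · obtain ⟨c, hc, hdet⟩ := exists_minor _ hr
    have h1 : (Matrix.of fun i j : Fin m => expSum (c j) (x i)).det ≠ 0 := by
      intro h0
      apply hdet
      have h2 : ((expMat x).map (Int.cast : ℤ → ℚ)).submatrix id c =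
          (Int.castRingHom ℚ).mapMatrix (Matrix.of fun i j : Fin m => expSum (c j) (x i)) := by
        ext i j
        rfl
      rw [h2, ← RingHom.map_det, h0, map_zero]
    obtain ⟨q, hqlt, hq⟩ := Nat.exists_infinite_primes
      ((Matrix.of fun i j : Fin m => expSum (c j) (x i)).det.natAbs + 1)
    refine ⟨q, hq, fun g => ⟨0, by rw [hN]; exact Subgroup.mem_top _⟩, c, hc, ?_⟩
    intro hdvd
    have h2 := Nat.le_of_dvd (Int.natAbs_pos.2 h1) (Int.natCast_dvd.1 hdvd)
    omega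
  · have : Fact q.Prime := ⟨hq⟩
    obtain ⟨c, hc, hdet⟩ := exists_minor _ hqr
    refine ⟨q, hq, hqN, c, hc, ?_⟩
    intro hdvd
    apply hdet
    have h2 : ((expMat x).map (Int.cast : ℤ → ZMod q)).submatrix id c =
        (Int.castRingHom (ZMod q)).mapMatrix
          (Matrix.of fun i j : Fin m => expSum (c j) (x i)) := by
      ext i j
      rfl
    rw [h2, ← RingHom.map_det]
    exact (ZMod.intCast_zmod_eq_zero_iff_dvd _ _).2 hdvd

theorem subgroupOf_lcs {G : Type u} [Group G] (N : Subgroup G) (i : ℕ) (g : N)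
    (hg : g ∈ (⊤ : Subgroup N).lowerCentralSeries i) : (g : G) ∈ N.lowerCentralSeries i := by
  rw [← Subgroup.top_subtype_lowerCentralSeries]
  exact ⟨g, hg, rfl⟩

theorem main_nilp {G : Type u} [Group G] (N : Subgroup G) [N.Normal]
    (hN2 : ∀ a ∈ ⁅N, N⁆, ∀ b ∈ ⁅N, N⁆, a * b = b * a)
    (hres : ∀ K : Subgroup G, K ≤ N → K.FG → ∀ g, (∀ i, g ∈ K.lowerCentralSeries i) → g = 1)
    (d : ℕ) (hd : derivedSeries G d ≤ N)
    (q : ℕ) [Fact q.Prime] (hq : ∀ g : G, ∃ k : ℕ, g ^ q ^ k ∈ N)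
    {m n : ℕ} (x : Fin m → Wd G n) (c : Fin m → Fin n) (hc : Function.Injective c)
    (hdet : ¬ (q : ℤ) ∣ (Matrix.of fun i j : Fin m => expSum (c j) (x i)).det) :
    Sol (d + 2) x := by
  refine square (d + 2) x c hc fun y hy => localize (d + 2) y fun K hK z hz => ?_
  have hKfg : Group.FG K := (Group.fg_iff_subgroup_fg K).2 hK
  have hdK : derivedSeries K d ≤ N.subgroupOf K := by
    intro g hg
    exact Subgroup.mem_subgroupOf.2
      (hd (map_derivedSeries_le_derivedSeries K.subtype d ⟨g, hg, rfl⟩))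
  have hSp : IsPGroup q (K ⧸ N.subgroupOf K) := isPGroup_quot _ q (fun g => by
    obtain ⟨k, hk⟩ := hq g
    exact ⟨k, Subgroup.mem_subgroupOf.2 hk⟩)
  have hSd : derivedSeries (K ⧸ N.subgroupOf K) d = ⊥ := ds_quot _ d hdK
  have hSfin : Finite (K ⧸ N.subgroupOf K) := finite_of_fg d hSd (torsion_of_isPGroup hSp)
  have hNi : (N.subgroupOf K).FiniteIndex := Subgroup.finiteIndex_of_finite_quotient
  have hNfg : Group.FG (N.subgroupOf K) := Subgroup.fg_of_index_ne_zero _
  refine transfer (N.subgroupOf K) hSp d 2 hSd (fun k y hy => main_rn ?_ ?_ y hy) z ?_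
  · -- metabelian
    let f : N.subgroupOf K →* G := K.subtype.comp (N.subgroupOf K).subtype
    have hf : Function.Injective f := K.subtype_injective.comp (N.subgroupOf K).subtype_injective
    rw [derivedSeries_succ, eq_bot_iff, Subgroup.commutator_le]
    intro a ha b hb
    rw [Subgroup.mem_bot, commutatorElement_eq_one_iff_mul_comm]
    apply hf
    rw [map_mul, map_mul]
    have h1 : ∀ a ∈ derivedSeries (N.subgroupOf K) 1, f a ∈ ⁅N, N⁆ := by
      intro a ha
      rw [derivedSeries_one] at ha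
      have h2 : (commutator (N.subgroupOf K)).map f ≤ ⁅N, N⁆ := by
        rw [commutator_def, Subgroup.map_commutator]
        apply Subgroup.commutator_mono
        · rintro _ ⟨b, -, rfl⟩
          exact Subgroup.mem_subgroupOf.1 b.2
        · rintro _ ⟨b, -, rfl⟩
          exact Subgroup.mem_subgroupOf.1 b.2
      exact h2 ⟨a, ha, rfl⟩
    exact hN2 _ (h1 a ha) _ (h1 b hb)
  · intro g hg
    let f : N.subgroupOf K →* G := K.subtype.comp (N.subgroupOf K).subtype
    have hf : Function.Injective f := K.subtype_injective.comp (N.subgroupOf K).subtype_injective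
    apply hf
    rw [map_one]
    have hrange : f.range ≤ N := by
      rintro _ ⟨b, rfl⟩
      exact Subgroup.mem_subgroupOf.1 b.2
    have hfgr : f.range.FG := by
      rw [← Group.fg_iff_subgroup_fg]
      exact Group.fg_of_surjective f.rangeRestrict_surjective
    apply hres f.range hrange hfgr
    intro i
    have h1 := Subgroup.map_lowerCentralSeries (⊤ : Subgroup (N.subgroupOf K)) f i
    rw [← MonoidHom.range_eq_map] at h1
    rw [← h1]
    exact ⟨g, hg i, rfl⟩
  · have h1 : (Matrix.of fun i j : Fin m => expSum j (z i)) =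
        Matrix.of fun i j : Fin m => expSum (c j) (x i) := by
      ext i j
      rw [Matrix.of_apply, Matrix.of_apply, ← hy, ← hz, expSum_incl]
    rw [h1]
    exact hdet

theorem main_nilp_rank {G : Type u} [Group G] (N : Subgroup G) [N.Normal]
    (hN2 : ∀ a ∈ ⁅N, N⁆, ∀ b ∈ ⁅N, N⁆, a * b = b * a)
    (hres : ∀ K : Subgroup G, K ≤ N → K.FG → ∀ g, (∀ i, g ∈ K.lowerCentralSeries i) → g = 1)
    (d : ℕ) (hd : derivedSeries G d ≤ N)
    {m n : ℕ} (x : Fin m → Wd G n) (hr : ((expMat x).map (Int.cast : ℤ → ℚ)).rank = m)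
    (hq : N = ⊤ ∨ ∃ q : ℕ, q.Prime ∧ (∀ g : G, ∃ k : ℕ, g ^ q ^ k ∈ N) ∧
      ((expMat x).map (Int.cast : ℤ → ZMod q)).rank = m) :
    Sol (d + 2) x := by
  obtain ⟨q, hq, hqN, c, hc, hdet⟩ := rank_cases N x hr hq
  have : Fact q.Prime := ⟨hq⟩
  exact main_nilp N hN2 hres d hd q hqN x c hc hdet

end Run7.h476
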