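import Mathlib

/-!
Group rings of finite abelian groups: multiplication by an element whose image in a quotient is
a multiple of the norm element.
-/

set_option autoImplicit false
set_option linter.unusedSectionVars false

namespace Run7.h476

open MonoidAlgebra

universe u v w

section socle

variable {p : ℕ} [Fact p.Prime] {Q : Type u} [CommGroup Q] [Finite Q]
  {X : Type v} [CommGroup X] [Finite X] {Y : Type w} [CommGroup Y]

theorem norm_mul (ι : Q →* X) (π : X →* Y) (hι : Function.Injective ι) (hk : π.ker = ι.range)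
    {K : Type*} [CommRing K] (F : MonoidAlgebra K X) (c : K) (b : MonoidAlgebra K Q)
    (hb : ∀ q, b.coeff q = c) (x : X) :
    (mapDomainRingHom K ι b * F).coeff x = c * (mapDomainRingHom K π F).coeff (π x) := by
  classical
  have := Fintype.ofFinite Q
  have := Fintype.ofFinite X
  have h1 : b = ∑ q : Q, MonoidAlgebra.single q c := by
    apply MonoidAlgebra.coeff_injective
    ext g
    rw [hb, MonoidAlgebra.coeff_sum, Finsupp.finsetSum_apply, Finset.sum_eq_single g]
    · simp
    · intro q _ hq
      simp [hq]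
    · simp
  have h2 : (mapDomainRingHom K ι b * F).coeff x = ∑ q : Q, c * F.coeff ((ι q)⁻¹ * x) := by
    rw [h1, map_sum, Finset.sum_mul, MonoidAlgebra.coeff_sum, Finsupp.finsetSum_apply]
    refine Finset.sum_congr rfl fun q _ => ?_
    rw [mapDomainRingHom_apply, mapDomain_single, coeff_single_mul_apply]
  rw [h2, ← Finset.mul_sum]
  congr 1
  have h3 : (mapDomainRingHom K π F).coeff (π x) = ∑ z : X, if π z = π x then F.coeff z else 0 := by
    rw [mapDomainRingHom_apply]
    have : F.coeff = ∑ z : X, Finsupp.single z (F.coeff z) := by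
      ext z
      rw [Finsupp.finsetSum_apply, Finset.sum_eq_single z]
      · simp
      · intro q _ hq
        simp [hq]
      · simp
    rw [mapDomain, MonoidAlgebra.coeff_ofCoeff, this, Finsupp.mapDomain_finsetSum,
      Finsupp.finsetSum_apply]
    refine Finset.sum_congr rfl fun z _ => ?_
    rw [Finsupp.mapDomain_single, Finsupp.single_apply, ← this]
  rw [h3, ← Finset.sum_filter]
  refine Finset.sum_nbij (fun q => (ι q)⁻¹ * x) ?_ ?_ ?_ ?_
  · intro q _
    have : π (ι q) = 1 := by
      have : ι q ∈ π.ker := by rw [hk]; exact ⟨q, rfl⟩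
      exact this
    simp [this]
  · intro a _ b _ hab
    simpa [hι.eq_iff] using hab
  · intro z hz
    have hz' : π z = π x := by simpa using hz
    have : x * z⁻¹ ∈ π.ker := by
      rw [MonoidHom.mem_ker, map_mul, map_inv, hz', mul_inv_cancel]
    rw [hk] at this
    obtain ⟨q, hq⟩ := this
    refine ⟨q, by simp, ?_⟩
    simp [hq]
  · intro q _
    rfl

theorem inj_mod_p (hQ : IsPGroup p Q) (ι : Q →* X) (π : X →* Y) (hι : Function.Injective ι)
    (hk : π.ker = ι.range) (hs : Function.Surjective π) (F : MonoidAlgebra (ZMod p) X)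
    (hF : mapDomainRingHom (ZMod p) π F ≠ 0) (s : MonoidAlgebra (ZMod p) Q)
    (h : mapDomainRingHom (ZMod p) ι s * F = 0) : s = 0 := by
  by_contra hs0
  let J : Submodule (ZMod p) (MonoidAlgebra (ZMod p) Q) :=
    { carrier := {t | mapDomainRingHom (ZMod p) ι t * F = 0}
      add_mem' := by
        intro a b ha hb
        simp only [Set.mem_ofPred_eq] at *
        rw [map_add, add_mul, ha, hb, add_zero]
      zero_mem' := by simp
      smul_mem' := by
        intro c a ha
        simp only [Set.mem_ofPred_eq] at *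
        have : c • a = MonoidAlgebra.single 1 c * a := by
          ext g
          simp
        rw [this, map_mul, mul_assoc, ha, mul_zero] }
  have : Finite (Q →₀ ZMod p) := Finite.of_equiv _ (Finsupp.equivFunOnFinite).symm
  have : Finite (MonoidAlgebra (ZMod p) Q) :=
    Finite.of_equiv _ (MonoidAlgebra.coeffEquiv (R := ZMod p) (M := Q)).symm
  have : Finite J := inferInstance
  have : Nontrivial J := ⟨⟨⟨s, h⟩, 0, fun h' => hs0 (congrArg Subtype.val h')⟩⟩
  let _ : MulAction Q J :=
    { smul := fun q t => ⟨MonoidAlgebra.single q 1 * t.1, by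
        show mapDomainRingHom (ZMod p) ι (MonoidAlgebra.single q 1 * t.1) * F = 0
        rw [map_mul, mul_assoc, show mapDomainRingHom (ZMod p) ι t.1 * F = 0 from t.2, mul_zero]⟩
      one_smul := by
        intro t
        apply Subtype.ext
        show MonoidAlgebra.single 1 1 * t.1 = t.1
        rw [← MonoidAlgebra.one_def, one_mul]
      mul_smul := by
        intro a b t
        apply Subtype.ext
        show MonoidAlgebra.single (a * b) 1 * t.1 =
          MonoidAlgebra.single a 1 * (MonoidAlgebra.single b 1 * t.1)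
        rw [← mul_assoc, MonoidAlgebra.single_mul_single, one_mul] }
  have hcard : p ∣ Nat.card J := by
    have h1 := Module.natCard_eq_pow_finrank (K := ZMod p) (V := J)
    rw [h1, Nat.card_zmod]
    exact dvd_pow_self p (Module.finrank_pos (R := ZMod p) (M := J)).ne'
  obtain ⟨b, hb, hb0⟩ := hQ.exists_fixed_point_of_prime_dvd_card_of_fixed_point J hcard
    (a := 0) (by
      intro q
      apply Subtype.ext
      show MonoidAlgebra.single q 1 * (0 : MonoidAlgebra (ZMod p) Q) = 0
      rw [mul_zero])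
  have hb1 : ∀ q, b.1.coeff q = b.1.coeff 1 := by
    intro q
    have h1 : MonoidAlgebra.single q 1 * b.1 = b.1 := congrArg Subtype.val (hb q)
    have h2 : (MonoidAlgebra.single q 1 * b.1).coeff q = b.1.coeff 1 := by
      rw [coeff_single_mul_apply, inv_mul_cancel, one_mul]
    rw [← h2, h1]
  have hc : b.1.coeff 1 ≠ 0 := by
    intro h0
    apply hb0
    apply Subtype.ext
    apply MonoidAlgebra.coeff_injective
    ext g
    rw [hb1, h0]
    rfl
  apply hF
  apply MonoidAlgebra.coeff_injective
  ext y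
  obtain ⟨x, rfl⟩ := hs y
  have h2 := norm_mul ι π hι hk F (b.1.coeff 1) b.1 hb1 x
  have h3 : mapDomainRingHom (ZMod p) ι b.1 * F = 0 := b.2
  rw [h3] at h2
  have h4 : b.1.coeff 1 * (mapDomainRingHom (ZMod p) π F).coeff (π x) = 0 := by
    rw [← h2]; rfl
  exact (mul_eq_zero.1 h4).resolve_left hc

end socle


section pure

variable {Q : Type u} [CommGroup Q] [Finite Q] {X : Type v} [CommGroup X] [Finite X]

theorem reduced_int (X : Type v) [CommGroup X] [Finite X] : IsReduced (MonoidAlgebra ℤ X) := by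
  have h1 : IsReduced (MonoidAlgebra ℚ X) := by
    have : NeZero (Nat.card X : ℚ) := ⟨by exact_mod_cast (Nat.card_pos (α := X)).ne'⟩
    infer_instance
  refine isReduced_of_injective (mapRingHom X (Int.castRingHom ℚ)) ?_
  rw [coe_mapRingHom]
  exact MonoidAlgebra.map_injective _ Int.cast_injective

theorem reduced_mod (r : ℕ) [Fact r.Prime] (hr : ¬ r ∣ Nat.card Q) :
    IsReduced (MonoidAlgebra (ZMod r) Q) := by
  have : NeZero (Nat.card Q : ZMod r) := ⟨by rwa [Ne, ZMod.natCast_eq_zero_iff]⟩
  infer_instance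

/-- reduction modulo `r` -/
noncomputable abbrev red (r : ℕ) (Q : Type u) [CommGroup Q] :
    MonoidAlgebra ℤ Q →+* MonoidAlgebra (ZMod r) Q := mapRingHom Q (Int.castRingHom (ZMod r))

theorem of_dvd (m : ℤ) (s : MonoidAlgebra ℤ Q) (h : ∀ q, m ∣ s.coeff q) :
    ∃ s' : MonoidAlgebra ℤ Q, s = m • s' := by
  refine ⟨ofCoeff (s.coeff.mapRange (fun z => z / m) (by simp)), ?_⟩
  ext q
  simp only [coeff_smul, Finsupp.smul_apply, Finsupp.mapRange_apply, smul_eq_mul]
  exact (Int.mul_ediv_cancel' (h q)).symm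

theorem zsmul_char (r : ℕ) (x : MonoidAlgebra (ZMod r) Q) : (r : ℤ) • x = 0 := by
  ext q
  rw [coeff_smul, Finsupp.smul_apply, zsmul_eq_mul, Int.cast_natCast, ZMod.natCast_self, zero_mul]
  rfl

theorem red_eq_zero (r : ℕ) (s : MonoidAlgebra ℤ Q) :
    red r Q s = 0 ↔ ∃ s' : MonoidAlgebra ℤ Q, s = (r : ℤ) • s' := by
  constructor
  · intro h
    apply of_dvd
    intro q
    have := congrArg (fun z => z.coeff q) h
    simp only [red, coeff_mapRingHom, coeff_zero, Finsupp.zero_apply, eq_intCast] at this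
    exact (ZMod.intCast_zmod_eq_zero_iff_dvd _ _).1 this
  · rintro ⟨s', rfl⟩
    rw [map_zsmul, zsmul_char]

theorem smul_cancel {m : ℤ} (hm : m ≠ 0) {a b : MonoidAlgebra ℤ Q} (h : m • a = m • b) : a = b := by
  ext q
  have := congrArg (fun z => z.coeff q) h
  simp only [coeff_smul, Finsupp.smul_apply, smul_eq_mul] at this
  exact mul_left_cancel₀ hm this

theorem red_map (r : ℕ) (ι : Q →* X) (s : MonoidAlgebra ℤ Q) :
    red r X (mapDomainRingHom ℤ ι s) = mapDomainRingHom (ZMod r) ι (red r Q s) := by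
  have := mapRingHom_comp_mapDomainRingHom (Int.castRingHom (ZMod r)) ι
  exact RingHom.congr_fun this s

/-- the hypotheses on `F` -/
structure Data (p : ℕ) (ι : Q →* X) (F : MonoidAlgebra ℤ X) : Prop where
  inj_mod : ∀ s : MonoidAlgebra (ZMod p) Q, mapDomainRingHom (ZMod p) ι s * red p X F = 0 → s = 0

variable {p : ℕ} [Fact p.Prime] {ι : Q →* X} {F : MonoidAlgebra ℤ X}

theorem Data.inj (D : Data p ι F) (s : MonoidAlgebra ℤ Q) (h : mapDomainRingHom ℤ ι s * F = 0) :
    s = 0 := by
  have key : ∀ (k : ℕ) (s : MonoidAlgebra ℤ Q), mapDomainRingHom ℤ ι s * F = 0 →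
      ∀ q, (p : ℤ) ^ k ∣ s.coeff q := by
    intro k
    induction k with
    | zero => intro s _ q; simp
    | succ k ih =>
      intro s hs q
      have h1 : red p Q s = 0 := by
        apply D.inj_mod
        rw [← red_map, ← map_mul, hs, map_zero]
      obtain ⟨s', rfl⟩ := (red_eq_zero p s).1 h1
      have h2 : mapDomainRingHom ℤ ι s' * F = 0 := by
        apply smul_cancel (m := (p : ℤ)) (by exact_mod_cast (Fact.out : p.Prime).ne_zero)
        rw [smul_zero, ← hs, map_zsmul, smul_mul_assoc]
      rw [coeff_smul, Finsupp.smul_apply, smul_eq_mul, pow_succ, mul_comm]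
      exact mul_dvd_mul_left _ (ih s' h2 q)
  ext q
  have h1 := key (s.coeff q).natAbs s h q
  apply Int.eq_zero_of_abs_lt_dvd h1
  have h2 : (s.coeff q).natAbs < p ^ (s.coeff q).natAbs :=
    Nat.lt_pow_self (Fact.out : p.Prime).one_lt
  rw [Int.abs_eq_natAbs]
  exact_mod_cast h2

theorem Data.pure_prime (hQ : IsPGroup p Q) (D : Data p ι F) (r : ℕ) [Fact r.Prime]
    (s : MonoidAlgebra ℤ Q) (t : MonoidAlgebra ℤ X)
    (h : mapDomainRingHom ℤ ι s * F = (r : ℤ) • (t * F)) : red r Q s = 0 := by
  by_cases hr : r = p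
  · subst hr
    apply D.inj_mod
    rw [← red_map, ← map_mul, h, map_zsmul, zsmul_char]
  · -- `t` is integral
    have hfin : Module.Finite ℤ (MonoidAlgebra ℤ X) := inferInstance
    obtain ⟨P, hP, hPt⟩ : IsIntegral ℤ t := Algebra.IsIntegral.isIntegral t
    set P' := P.scaleRoots (r : ℤ) with hP'
    have h1 : Polynomial.aeval ((r : ℤ) • t) P' = 0 := by
      have := Polynomial.scaleRoots_aeval_eq_zero (r := (r : ℤ)) (p := P) (a := t) hPt
      rw [← Algebra.smul_def] at this
      exact this
    have h2 : Polynomial.aeval (mapDomainRingHom ℤ ι s) P' * F = 0 := by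
      obtain ⟨c, hc⟩ := Polynomial.sub_dvd_eval_sub (mapDomainRingHom ℤ ι s) ((r : ℤ) • t)
        (P'.map (algebraMap ℤ (MonoidAlgebra ℤ X)))
      rw [← Polynomial.eval₂_eq_eval_map, ← Polynomial.eval₂_eq_eval_map, ← Polynomial.aeval_def,
        ← Polynomial.aeval_def, h1, sub_zero] at hc
      rw [hc, mul_right_comm, sub_mul, h, smul_mul_assoc, sub_self, zero_mul]
    have h3 : Polynomial.aeval s P' = 0 := by
      apply D.inj
      rw [← h2]
      congr 1
      exact (Polynomial.aeval_algHom_apply (mapDomainRingHom ℤ ι).toIntAlgHom s P').symm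
    have h4 : Polynomial.aeval (red r Q s) P' = 0 := by
      have := Polynomial.aeval_algHom_apply (red r Q).toIntAlgHom s P'
      rw [h3, map_zero] at this
      exact this
    have h5 : Polynomial.aeval (red r Q s) P' = red r Q s ^ P.natDegree := by
      rw [Polynomial.aeval_eq_sum_range, Polynomial.natDegree_scaleRoots, Finset.sum_range_succ,
        Finset.sum_eq_zero, zero_add, Polynomial.coeff_scaleRoots, hP.coeff_natDegree, one_mul,
        Nat.sub_self, pow_zero, one_smul]
      intro i hi
      rw [Finset.mem_range] at hi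
      obtain ⟨k, hk⟩ : ∃ k, P.natDegree - i = k + 1 := ⟨P.natDegree - i - 1, by omega⟩
      rw [Polynomial.coeff_scaleRoots, hk, pow_succ, ← mul_assoc, mul_smul, zsmul_char, smul_zero]
    have h6 : ¬ r ∣ Nat.card Q := by
      obtain ⟨n, hn⟩ := hQ.exists_card_eq
      rw [hn]
      intro h
      exact hr ((Nat.prime_dvd_prime_iff_eq Fact.out Fact.out).1
        ((Fact.out : r.Prime).dvd_of_dvd_pow h))
    have := reduced_mod (Q := Q) r h6
    exact IsReduced.eq_zero _ ⟨P.natDegree, by rw [← h5, h4]⟩

theorem Data.pure (hQ : IsPGroup p Q) (D : Data p ι F) (m : ℕ) (hm : m ≠ 0) :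
    ∀ (s : MonoidAlgebra ℤ Q) (t : MonoidAlgebra ℤ X),
      mapDomainRingHom ℤ ι s * F = (m : ℤ) • (t * F) →
        ∃ s' : MonoidAlgebra ℤ Q, s = (m : ℤ) • s' := by
  induction m using Nat.recOnMul with
  | zero => exact absurd rfl hm
  | one =>
    intro s t _
    exact ⟨s, by simp⟩
  | prime r hr =>
    intro s t h
    have : Fact r.Prime := ⟨hr⟩
    exact (red_eq_zero r s).1 (D.pure_prime hQ r s t h)
  | mul a b iha ihb =>
    intro s t h
    have ha : a ≠ 0 := fun h0 => hm (by rw [h0, zero_mul])
    have hb : b ≠ 0 := fun h0 => hm (by rw [h0, mul_zero])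
    obtain ⟨s', rfl⟩ := iha ha s ((b : ℤ) • t) (by
      rw [h, Nat.cast_mul, mul_smul, smul_mul_assoc])
    obtain ⟨s'', rfl⟩ := ihb hb s' t (by
      apply smul_cancel (m := (a : ℤ)) (by exact_mod_cast ha)
      rw [← smul_mul_assoc, ← map_zsmul, h, Nat.cast_mul, mul_smul])
    exact ⟨s'', by rw [Nat.cast_mul, mul_smul]⟩

/-- multiplication by `F` as a map to the ideal generated by `F` -/
noncomputable def toI (ι : Q →* X) (F : MonoidAlgebra ℤ X) :
    MonoidAlgebra ℤ Q →ₗ[ℤ] (Ideal.span {F} : Ideal (MonoidAlgebra ℤ X)) where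
  toFun s := ⟨mapDomainRingHom ℤ ι s * F,
    Ideal.mul_mem_left _ _ (Ideal.mem_span_singleton_self F)⟩
  map_add' a b := by
    apply Subtype.ext
    show mapDomainRingHom ℤ ι (a + b) * F = mapDomainRingHom ℤ ι a * F + mapDomainRingHom ℤ ι b * F
    rw [map_add, add_mul]
  map_smul' a b := by
    apply Subtype.ext
    show mapDomainRingHom ℤ ι (a • b) * F = a • (mapDomainRingHom ℤ ι b * F)
    rw [map_zsmul, smul_mul_assoc]

theorem toI_coe (ι : Q →* X) (F : MonoidAlgebra ℤ X) (s : MonoidAlgebra ℤ Q) :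
    (toI ι F s : MonoidAlgebra ℤ X) = mapDomainRingHom ℤ ι s * F := rfl

theorem Data.exists_functional (hQ : IsPGroup p Q) (D : Data p ι F) :
    ∃ l : (Ideal.span {F} : Ideal (MonoidAlgebra ℤ X)) →ₗ[ℤ] ℤ,
      ∀ s : MonoidAlgebra ℤ Q, l (toI ι F s) = s.coeff 1 := by
  have hinj : Function.Injective (toI ι F) := by
    rw [injective_iff_map_eq_zero]
    intro s hs
    exact D.inj s (congrArg Subtype.val hs)
  let C := (Ideal.span {F} : Ideal (MonoidAlgebra ℤ X)) ⧸ LinearMap.range (toI ι F)
  have hfin : Module.Finite ℤ (Ideal.span {F} : Ideal (MonoidAlgebra ℤ X)) := by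
    have h1 : Module.Finite ℤ (MonoidAlgebra ℤ X) := inferInstance
    exact Module.Finite.of_injective
      ((Submodule.subtype (Ideal.span {F} : Ideal (MonoidAlgebra ℤ X))).restrictScalars ℤ)
      Subtype.val_injective
  have hC : Module.Finite ℤ C := inferInstance
  have key : ∀ (m : ℕ), m ≠ 0 → ∀ c : C, (m : ℤ) • c = 0 → c = 0 := by
    intro m hm c hc
    obtain ⟨⟨z, hz⟩, rfl⟩ := Submodule.mkQ_surjective _ c
    rw [← map_zsmul, Submodule.mkQ_apply, Submodule.Quotient.mk_eq_zero] at hc
    obtain ⟨s, hs⟩ := hc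
    obtain ⟨t, rfl⟩ := Ideal.mem_span_singleton'.1 hz
    have h1 : mapDomainRingHom ℤ ι s * F = (m : ℤ) • (t * F) := congrArg Subtype.val hs
    obtain ⟨s', rfl⟩ := D.pure hQ m hm s t h1
    have h2 : mapDomainRingHom ℤ ι s' * F = t * F := by
      apply smul_cancel (m := (m : ℤ)) (by exact_mod_cast hm)
      rw [← h1, map_zsmul, smul_mul_assoc]
    rw [Submodule.mkQ_apply, Submodule.Quotient.mk_eq_zero]
    exact ⟨s', Subtype.ext h2⟩
  have htf : Module.IsTorsionFree ℤ C := by
    apply Module.IsTorsionFree.of_smul_eq_zero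
    intro r c hrc
    by_cases hr : r = 0
    · exact Or.inl hr
    · right
      apply key r.natAbs (Int.natAbs_ne_zero.2 hr) c
      rcases Int.natAbs_eq r with h | h
      · rw [← h]; exact hrc
      · have h3 : ((r.natAbs : ℕ) : ℤ) = -r := by omega
        rw [h3, neg_smul, hrc, neg_zero]
  have hfree : Module.Free ℤ C := inferInstance
  obtain ⟨σ, hσ⟩ := Module.projective_lifting_property (LinearMap.range (toI ι F)).mkQ
    (LinearMap.id : C →ₗ[ℤ] C) (Submodule.mkQ_surjective _)
  have hmem : ∀ z, z - σ ((LinearMap.range (toI ι F)).mkQ z) ∈ LinearMap.range (toI ι F) := by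
    intro z
    rw [← Submodule.Quotient.mk_eq_zero, ← Submodule.mkQ_apply, map_sub]
    have := LinearMap.congr_fun hσ ((LinearMap.range (toI ι F)).mkQ z)
    simp only [LinearMap.comp_apply, LinearMap.id_apply] at this
    rw [this, sub_self]
  let e := LinearEquiv.ofInjective (toI ι F) hinj
  let τ : (Ideal.span {F} : Ideal (MonoidAlgebra ℤ X)) →ₗ[ℤ] LinearMap.range (toI ι F) :=
    LinearMap.codRestrict _ (LinearMap.id - σ.comp (LinearMap.range (toI ι F)).mkQ) hmem
  let l1 : MonoidAlgebra ℤ Q →ₗ[ℤ] ℤ :=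
    { toFun := fun s => s.coeff 1
      map_add' := fun a b => rfl
      map_smul' := fun a b => rfl }
  refine ⟨l1.comp (e.symm.toLinearMap.comp τ), fun s => ?_⟩
  have h1 : τ (toI ι F s) = e s := by
    apply Subtype.ext
    show toI ι F s - σ ((LinearMap.range (toI ι F)).mkQ (toI ι F s)) = toI ι F s
    have : (LinearMap.range (toI ι F)).mkQ (toI ι F s) = 0 := by
      rw [Submodule.mkQ_apply, Submodule.Quotient.mk_eq_zero]
      exact ⟨s, rfl⟩
    rw [this, map_zero, sub_zero]
  show (e.symm (τ (toI ι F s))).coeff 1 = s.coeff 1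
  rw [h1, LinearEquiv.symm_apply_apply]

/-- the target of characters -/
abbrev TT := AddCircle (1 : ℚ)

/-- The module. -/
theorem Data.exists_module (hQ : IsPGroup p Q) (D : Data p ι F) :
    ∃ (V : Type v) (_ : AddCommGroup V) (_ : Module (MonoidAlgebra ℤ X) V) (j : (Q → TT) →+ V),
      (∀ v : V, ∃ v', F • v' = v) ∧ Function.Injective j ∧
      ∀ (f : Q → TT) (q : Q), MonoidAlgebra.single (ι q) (1 : ℤ) • j f = j (fun q' => f (q' * q)) := by
  classical
  obtain ⟨l, hl⟩ := D.exists_functional hQ
  have := Fintype.ofFinite Q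
  let I : Ideal (MonoidAlgebra ℤ X) := Ideal.span {F}
  let j : (Q → TT) →+ CharacterModule I :=
    { toFun := fun f =>
        ({ toFun := fun z => ∑ q : Q, l (MonoidAlgebra.single (ι q)⁻¹ (1 : ℤ) • z) • f q
           map_zero' := by simp
           map_add' := by
            intro a b
            rw [← Finset.sum_add_distrib]
            refine Finset.sum_congr rfl fun q _ => ?_
            rw [smul_add, map_add, add_smul] } : I →+ TT)
      map_zero' := by
        ext z
        show ∑ q : Q, l (MonoidAlgebra.single (ι q)⁻¹ (1 : ℤ) • z) • (0 : TT) = 0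
        simp
      map_add' := by
        intro a b
        ext z
        show ∑ q : Q, l (MonoidAlgebra.single (ι q)⁻¹ (1 : ℤ) • z) • (a q + b q) =
          ∑ q : Q, l (MonoidAlgebra.single (ι q)⁻¹ (1 : ℤ) • z) • a q +
          ∑ q : Q, l (MonoidAlgebra.single (ι q)⁻¹ (1 : ℤ) • z) • b q
        rw [← Finset.sum_add_distrib]
        refine Finset.sum_congr rfl fun q _ => ?_
        rw [smul_add] }
  have hj : ∀ f z, j f z = ∑ q : Q, l (MonoidAlgebra.single (ι q)⁻¹ (1 : ℤ) • z) • f q :=
    fun f z => rfl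
  refine ⟨CharacterModule I, inferInstance, inferInstance, j, ?_, ?_, ?_⟩
  · have hred := reduced_int X
    have hinj : Function.Injective (LinearMap.lsmul (MonoidAlgebra ℤ X) I F) := by
      rw [injective_iff_map_eq_zero]
      rintro ⟨z, hz⟩ h
      obtain ⟨t, rfl⟩ := Ideal.mem_span_singleton'.1 hz
      have h1 : F * (t * F) = 0 := congrArg Subtype.val h
      apply Subtype.ext
      show t * F = 0
      apply IsReduced.eq_zero
      exact ⟨2, by rw [pow_two, mul_assoc, h1, mul_zero]⟩
    intro v
    obtain ⟨v', hv'⟩ := CharacterModule.dual_surjective_of_injective _ hinj v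
    refine ⟨v', ?_⟩
    rw [← hv']
    ext z
    rfl
  · rw [injective_iff_map_eq_zero]
    intro f hf
    funext q0
    have h1 := congrArg (fun c : CharacterModule I => c (toI ι F (MonoidAlgebra.single q0 1))) hf
    simp only [hj] at h1
    have h2 : ∀ q : Q, MonoidAlgebra.single (ι q)⁻¹ (1 : ℤ) • toI ι F (MonoidAlgebra.single q0 1) =
        toI ι F (MonoidAlgebra.single (q⁻¹ * q0) 1) := by
      intro q
      apply Subtype.ext
      show MonoidAlgebra.single (ι q)⁻¹ (1 : ℤ) * (mapDomainRingHom ℤ ι _ * F) =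
        mapDomainRingHom ℤ ι _ * F
      rw [← mul_assoc, mapDomainRingHom_apply, mapDomainRingHom_apply, mapDomain_single,
        mapDomain_single, MonoidAlgebra.single_mul_single, map_mul, map_inv, one_mul]
    rw [Finset.sum_eq_single q0] at h1
    · rw [h2, hl, inv_mul_cancel, coeff_single, Finsupp.single_eq_same, one_smul] at h1
      exact h1
    · intro q _ hq
      rw [h2, hl, coeff_single, Finsupp.single_eq_of_ne, zero_smul]
      intro h3
      exact hq (inv_mul_eq_one.1 h3.symm)
    · simp
  · intro f q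
    ext z
    rw [CharacterModule.smul_apply, hj, hj]
    refine Fintype.sum_equiv (Equiv.mulRight q⁻¹) _ _ fun a => ?_
    simp only [Equiv.coe_mulRight]
    rw [inv_mul_cancel_right, smul_smul, MonoidAlgebra.single_mul_single, map_mul, map_inv,
      mul_inv_rev, inv_inv, one_mul, mul_comm (ι q)]

end pure

end Run7.h476
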